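import Mathlib

/-!
Corona data on the ball which are uniformly continuous along a circle in the scaled metric:
definitions and statements of the parts (Mathlib only).
-/

set_option autoImplicit false

open Metric Set Filter Topology Complex
open scoped ContDiff

namespace Pool.Agent.W732.Cor

/-- `ℂ^m` with the Euclidean norm -/
abbrev V (m : ℕ) := EuclideanSpace ℂ (Fin m)

/-- The automorphisms of the ball (`‖p‖ = 1`, `|a| < 1`) which translate the complex geodesic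
through `0` and `p`: `⟨p, mv p a z⟩ = (⟨p, z⟩ + a) / (1 + conj a ⟨p, z⟩)`. -/
noncomputable def mv {m : ℕ} (p : V m) (a : ℂ) (z : V m) : V m :=
  (1 / (1 + starRingEnd ℂ a * inner ℂ p z)) •
    (((inner ℂ p z : ℂ) + a) • p + ((√(1 - ‖a‖ ^ 2) : ℝ) : ℂ) • (z - (inner ℂ p z : ℂ) • p))

/-- The maps `z ↦ ⟨p, z⟩ p + t (z - ⟨p, z⟩ p)`. -/
noncomputable def tau {m : ℕ} (p : V m) (t : ℝ) (z : V m) : V m :=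
  (inner ℂ p z : ℂ) • p + (t : ℂ) • (z - (inner ℂ p z : ℂ) • p)

/-- Scaled uniform continuity along the circle `{e^{iθ} p}`: the functions `f ∘ mv p a`, `|a| < 1`,
are equicontinuous at all points `q` of the sphere which are orthogonal to `p`. -/
def SC {m : ℕ} (p : V m) (f : V m → ℂ) : Prop :=
  ∀ q : V m, ‖q‖ = 1 → (inner ℂ p q : ℂ) = 0 → ∀ ε : ℝ, 0 < ε → ∃ r : ℝ, 0 < r ∧
    ∀ a ∈ ball (0 : ℂ) 1, ∀ z ∈ ball (0 : V m) 1, ∀ w ∈ ball (0 : V m) 1,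
      ‖z - q‖ < r → ‖w - q‖ < r → ‖f (mv p a z) - f (mv p a w)‖ ≤ ε

/-- MV: the maps `mv p a` are automorphisms of the ball -/
def S_mv : Prop :=
  ∀ (m : ℕ) (p : V m), ‖p‖ = 1 → ∀ a ∈ ball (0 : ℂ) 1,
    DifferentiableOn ℂ (mv p a) (ball 0 1) ∧ MapsTo (mv p a) (ball 0 1) (ball 0 1) ∧
    (∀ z ∈ ball (0 : V m) 1, mv p (-a) (mv p a z) = z) ∧
    (∀ z ∈ ball (0 : V m) 1, (inner ℂ p (mv p a z) : ℂ) =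
      ((inner ℂ p z : ℂ) + a) / (1 + starRingEnd ℂ a * inner ℂ p z)) ∧
    ∀ (t : ℝ), 0 ≤ t → t ≤ 1 → ∀ z ∈ ball (0 : V m) 1, mv p a (tau p t z) = tau p t (mv p a z)

/-- LOC: uniform local solutions -/
def S_loc : Prop :=
  ∀ (m : ℕ) (p : V m), ‖p‖ = 1 → ∀ (N : ℕ) (δ : ℝ), 0 < δ → ∀ r : V m → ℝ → ℝ,
    (∀ q ε, 0 < ε → 0 < r q ε) → ∃ C : ℝ, ∀ (F : Fin N → V m → ℂ) (G : V m → ℂ),
      (∀ i, DifferentiableOn ℂ (F i) (ball 0 1)) → DifferentiableOn ℂ G (ball 0 1) →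
      (∀ i, ∀ z ∈ ball (0 : V m) 1, ‖F i z‖ ≤ 1) → (∀ z ∈ ball (0 : V m) 1, ‖G z‖ ≤ 1) →
      (∀ z ∈ ball (0 : V m) 1, δ ≤ ∑ i, ‖F i z‖ + ‖G z‖) →
      (∀ i, ∀ q : V m, ‖q‖ = 1 → (inner ℂ p q : ℂ) = 0 → ∀ ε : ℝ, 0 < ε →
        ∀ z ∈ ball (0 : V m) 1, ∀ w ∈ ball (0 : V m) 1,
          ‖z - q‖ < r q ε → ‖w - q‖ < r q ε → ‖F i z - F i w‖ ≤ ε) →
      ∃ (g : Fin N → V m → ℂ) (g₀ g₁ : V m → ℂ),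
        (∀ i, DifferentiableOn ℂ (g i) (ball 0 1)) ∧ DifferentiableOn ℂ g₀ (ball 0 1) ∧
        DifferentiableOn ℂ g₁ (ball 0 1) ∧
        (∀ i, ∀ z ∈ ball (0 : V m) 1, ‖g i z‖ ≤ C) ∧ (∀ z ∈ ball (0 : V m) 1, ‖g₀ z‖ ≤ C) ∧
        (∀ z ∈ ball (0 : V m) 1, ‖g₁ z‖ ≤ C) ∧
        ∀ z ∈ ball (0 : V m) 1, ∑ i, F i z * g i z + G z * g₀ z + inner ℂ p z * g₁ z = 1

/-- BALL: slice localisation on the ball of `ℂ^m` in the direction `p` -/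
def S_ball : Prop :=
  ∀ (N : ℕ) (C : ℝ), ∃ C' : ℝ, ∀ (m : ℕ) (p : V m), ‖p‖ = 1 →
    ∀ F : Fin N → V m → ℂ, (∀ i, DifferentiableOn ℂ (F i) (ball 0 1)) →
      (∀ i, ∀ z ∈ ball (0 : V m) 1, ‖F i z‖ ≤ 1) →
      (∀ a ∈ ball (0 : ℂ) 1, ∃ (g : Fin N → V m → ℂ) (g₀ : V m → ℂ),
        (∀ i, DifferentiableOn ℂ (g i) (ball 0 1)) ∧ DifferentiableOn ℂ g₀ (ball 0 1) ∧
        (∀ i, ∀ z ∈ ball (0 : V m) 1, ‖g i z‖ ≤ C) ∧ (∀ z ∈ ball (0 : V m) 1, ‖g₀ z‖ ≤ C) ∧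
        ∀ z ∈ ball (0 : V m) 1, ∑ i, F i z * g i z +
          ((inner ℂ p z : ℂ) - a) / (1 - starRingEnd ℂ a * inner ℂ p z) * g₀ z = 1) →
      ∃ h : Fin N → V m → ℂ, (∀ i, DifferentiableOn ℂ (h i) (ball 0 1)) ∧
        (∀ i, ∀ z ∈ ball (0 : V m) 1, ‖h i z‖ ≤ C') ∧
        ∀ z ∈ ball (0 : V m) 1, ∑ i, F i z * h i z = 1

/-- UNI: uniform corona theorem for scaled continuous functions and one arbitrary function -/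
def S_uni : Prop :=
  ∀ (m : ℕ) (p : V m), ‖p‖ = 1 → ∀ (N : ℕ) (δ : ℝ), 0 < δ → ∀ r : V m → ℝ → ℝ,
    (∀ q ε, 0 < ε → 0 < r q ε) → ∃ C : ℝ, ∀ (F : Fin N → V m → ℂ) (G : V m → ℂ),
      (∀ i, DifferentiableOn ℂ (F i) (ball 0 1)) → DifferentiableOn ℂ G (ball 0 1) →
      (∀ i, ∀ z ∈ ball (0 : V m) 1, ‖F i z‖ ≤ 1) → (∀ z ∈ ball (0 : V m) 1, ‖G z‖ ≤ 1) →
      (∀ z ∈ ball (0 : V m) 1, δ ≤ ∑ i, ‖F i z‖ + ‖G z‖) →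
      (∀ i, ∀ q : V m, ‖q‖ = 1 → (inner ℂ p q : ℂ) = 0 → ∀ ε : ℝ, 0 < ε →
        ∀ a ∈ ball (0 : ℂ) 1, ∀ z ∈ ball (0 : V m) 1, ∀ w ∈ ball (0 : V m) 1,
          ‖z - q‖ < r q ε → ‖w - q‖ < r q ε → ‖F i (mv p a z) - F i (mv p a w)‖ ≤ ε) →
      ∃ (g : Fin N → V m → ℂ) (g₀ : V m → ℂ),
        (∀ i, DifferentiableOn ℂ (g i) (ball 0 1)) ∧ DifferentiableOn ℂ g₀ (ball 0 1) ∧
        (∀ i, ∀ z ∈ ball (0 : V m) 1, ‖g i z‖ ≤ C) ∧ (∀ z ∈ ball (0 : V m) 1, ‖g₀ z‖ ≤ C) ∧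
        ∀ z ∈ ball (0 : V m) 1, ∑ i, F i z * g i z + G z * g₀ z = 1

/-- FIN: the local theorem -/
def S_fin : Prop :=
  ∀ (m N : ℕ) (f : Fin N → V m → ℂ), (∀ j, DifferentiableOn ℂ (f j) (ball 0 1)) →
    (∀ j, ∃ M : ℝ, ∀ z ∈ ball (0 : V m) 1, ‖f j z‖ ≤ M) →
    (∀ z ∈ ball (0 : V m) 1, ∃ j, f j z ≠ 0) →
    (∀ p : V m, ‖p‖ = 1 → ∃ (k : Fin N) (S : Finset (Fin N)) (c : ℝ), 0 < c ∧
      (∀ᶠ z in 𝓝[ball 0 1] p, c ≤ ‖f k z‖ + ∑ j ∈ S, ‖f j z‖) ∧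
      ∀ j ∈ S, ∃ h : V m → ℂ, DifferentiableOn ℂ h (ball 0 1) ∧
        (∃ M : ℝ, ∀ z ∈ ball (0 : V m) 1, ‖h z‖ ≤ M) ∧ SC p h ∧
        Tendsto (fun z => f j z - h z) (𝓝[ball 0 1] p) (𝓝 0)) →
    ∃ g : Fin N → V m → ℂ, (∀ j, DifferentiableOn ℂ (g j) (ball 0 1)) ∧
      (∃ C : ℝ, ∀ j, ∀ z ∈ ball (0 : V m) 1, ‖g j z‖ ≤ C) ∧
      ∀ z ∈ ball (0 : V m) 1, ∑ j, f j z * g j z = 1

/-- SC1: functions of one variable -/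
def S_sc1 : Prop :=
  ∀ (m : ℕ) (p : V m), ‖p‖ = 1 → ∀ (h : ℂ → ℂ), DifferentiableOn ℂ h (ball 0 1) →
    (∃ M : ℝ, ∀ x ∈ ball (0 : ℂ) 1, ‖h x‖ ≤ M) → SC p (fun z => h (inner ℂ p z))

/-- SC2: functions `H(⟨p, z⟩ p + t (z - ⟨p, z⟩ p))`, `t < 1`, with a modulus of continuity that
depends only on `t` -/
def S_sc2 : Prop :=
  ∀ (m : ℕ) (p : V m), ‖p‖ = 1 → ∀ t : ℝ, 0 ≤ t → t < 1 → ∀ ε : ℝ, 0 < ε → ∃ r : ℝ, 0 < r ∧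
    ∀ H : V m → ℂ, DifferentiableOn ℂ H (ball 0 1) → (∀ z ∈ ball (0 : V m) 1, ‖H z‖ ≤ 1) →
    ∀ q : V m, ‖q‖ = 1 → (inner ℂ p q : ℂ) = 0 →
    ∀ a ∈ ball (0 : ℂ) 1, ∀ z ∈ ball (0 : V m) 1, ∀ w ∈ ball (0 : V m) 1,
      ‖z - q‖ < r → ‖w - q‖ < r → ‖H (tau p t (mv p a z)) - H (tau p t (mv p a w))‖ ≤ ε

/-- SC3: sums and products -/
def S_sc3 : Prop :=
  ∀ (m : ℕ) (p : V m), ‖p‖ = 1 → ∀ f g : V m → ℂ, SC p f → SC p g →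
    (∃ M : ℝ, ∀ z ∈ ball (0 : V m) 1, ‖f z‖ ≤ M) → (∃ M : ℝ, ∀ z ∈ ball (0 : V m) 1, ‖g z‖ ≤ M) →
    SC p (fun z => f z + g z) ∧ SC p (fun z => f z * g z) ∧ ∀ c : ℂ, SC p (fun _ => c)

/-- PART (Mathlib form): a partition of unity on the half plane adapted to the hyperbolic metric -/
def S_part0 : Prop :=
  ∀ κ : ℝ, 0 < κ → ∃ (K : ℝ) (a : ℤ × ℤ → ℂ) (χ : ℤ × ℤ → ℂ → ℂ), 0 ≤ K ∧
    (∀ j, 0 < (a j).im) ∧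
    (∀ j, ContDiffOn ℝ 1 (χ j) {w : ℂ | 0 < w.im}) ∧
    (∀ j w, 0 < w.im → χ j w ≠ 0 → ‖w - a j‖ ≤ κ * (a j).im) ∧
    (∀ j w, 0 < w.im → ‖χ j w‖ ≤ 1) ∧
    (∀ j w, 0 < w.im → ‖(fderiv ℝ (χ j) w 1 + I * fderiv ℝ (χ j) w I) / 2‖ ≤ K / w.im) ∧
    ∀ w₀ : ℂ, 0 < w₀.im → ∃ S : Finset (ℤ × ℤ), S.card ≤ 16 ∧ ∃ r > 0,
      ball w₀ r ⊆ {w : ℂ | 0 < w.im} ∧
      ∀ w ∈ ball w₀ r, (∀ j, j ∉ S → χ j w = 0) ∧ ∑ j ∈ S, χ j w = 1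

/-- KER: the basic integral -/
def S_ker : Prop :=
  ∃ c₀ : ℝ, 0 ≤ c₀ ∧ ∀ w : ℂ, 0 < w.im →
    MeasureTheory.Integrable (fun ζ : ℂ => {ζ : ℂ | 0 < ζ.im}.indicator
      (fun ζ => (1 / ζ.im) * (2 * √(ζ.im * w.im) / ‖w - starRingEnd ℂ ζ‖) * ‖w - ζ‖⁻¹) ζ) ∧
    ∫ ζ : ℂ, {ζ : ℂ | 0 < ζ.im}.indicator
      (fun ζ => (1 / ζ.im) * (2 * √(ζ.im * w.im) / ‖w - starRingEnd ℂ ζ‖) * ‖w - ζ‖⁻¹) ζ ≤ c₀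

end Pool.Agent.W732.Cor
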