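import Mathlib
import Pool.Agent.H788R3.Cor2.Asm2
import Pool.Agent.H788R3.Cor2.Sieg2

/-!
Slice localisation for the corona problem: statements of the parts (half plane side).
-/

set_option autoImplicit false

open MeasureTheory Metric Set Filter Topology Complex
open scoped ContDiff

namespace Pool.Agent.W732.Cor

open Pool.Agent.H720R2.HP Pool.Agent.H788R3.Cor2

/-- the factor `2 √(Im ζ Im w) / |w - conj ζ|` (it is `≤ 1`, with equality for `w = ζ`) -/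
noncomputable def dk (ζ w : ℂ) : ℝ := 2 * √(ζ.im * w.im) / ‖w - starRingEnd ℂ ζ‖

/-- the solution operator -/
noncomputable def VV {E : Type} (Λ : ℂ → ℂ × E → E) (q : ℂ × E → ℂ) (p : ℂ × E) : ℂ :=
  (1 / Real.pi : ℂ) * ∫ ζ, UH.indicator (fun ζ => q (ζ, Λ ζ p)) ζ / (p.1 - ζ)

/-- OP: the solution operator for `∂V/∂w̄ = q(w, y)`, `q` holomorphic in `y` and decaying along the
retractions -/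
def S_op : Prop :=
  ∃ c₀ : ℝ, 0 ≤ c₀ ∧ ∀ (E : Type) [NormedAddCommGroup E] [NormedSpace ℂ E]
    [FiniteDimensional ℂ E] (D : Set (ℂ × E)) (Λ : ℂ → ℂ × E → E), Retr D Λ →
    ∀ (q : ℂ × E → ℂ) (A : ℝ), 0 ≤ A → ContinuousOn q D →
      (∀ ζ : ℂ, DifferentiableOn ℂ (fun y : E => q (ζ, y)) {y | (ζ, y) ∈ D}) →
      (∀ ζ : ℂ, 0 < ζ.im → ∀ p ∈ D, ‖q (ζ, Λ ζ p)‖ ≤ A / ζ.im * dk ζ p.1) →
      (∀ p ∈ D, ‖VV Λ q p‖ ≤ c₀ * A) ∧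
      (∀ y : E, WD {w : ℂ | (w, y) ∈ D} (fun w => VV Λ q (w, y)) (fun w => q (w, y))) ∧
      ∀ w : ℂ, DifferentiableOn ℂ (fun y : E => VV Λ q (w, y)) {y | (w, y) ∈ D}

/-- PART: a partition of unity on the half plane adapted to the hyperbolic metric -/
def S_part : Prop :=
  ∀ κ : ℝ, 0 < κ → ∃ (K : ℝ) (a : ℤ × ℤ → ℂ) (χ : ℤ × ℤ → ℂ → ℂ), 0 ≤ K ∧
    (∀ j, 0 < (a j).im) ∧
    (∀ j, ContDiffOn ℝ 1 (χ j) UH) ∧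
    (∀ j, ∀ w ∈ UH, χ j w ≠ 0 → ‖w - a j‖ ≤ κ * (a j).im) ∧
    (∀ j, ∀ w ∈ UH, ‖χ j w‖ ≤ 1) ∧
    (∀ j, ∀ w ∈ UH, ‖db (χ j) w‖ ≤ K / w.im) ∧
    ∀ w₀ ∈ UH, ∃ S : Finset (ℤ × ℤ), S.card ≤ 16 ∧ ∃ r > 0, ball w₀ r ⊆ UH ∧
      ∀ w ∈ ball w₀ r, (∀ j, j ∉ S → χ j w = 0) ∧ ∑ j ∈ S, χ j w = 1

/-- BASE: Carleson's corona theorem on the half plane with uniform constants -/
def S_base : Prop :=
  ∀ (N : ℕ) (δ : ℝ), 0 < δ → ∃ C : ℝ, ∀ f : Fin N → ℂ → ℂ,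
    (∀ i, DifferentiableOn ℂ (f i) UH) → (∀ i, ∀ w ∈ UH, ‖f i w‖ ≤ 1) →
    (∀ w ∈ UH, δ ≤ ∑ i, ‖f i w‖) →
    ∃ g : Fin N → ℂ → ℂ, (∀ i, DifferentiableOn ℂ (g i) UH) ∧ (∀ i, ∀ w ∈ UH, ‖g i w‖ ≤ C) ∧
      ∀ w ∈ UH, ∑ i, f i w * g i w = 1

/-- `Λ ζ` is a holomorphic retraction of `D` onto its slice over `ζ` which contracts towards
`y = 0` like the hyperbolic distance -/
structure Tube {E : Type} [NormedAddCommGroup E] [NormedSpace ℂ E] [FiniteDimensional ℂ E]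
    (D : Set (ℂ × E)) (Λ : ℂ → ℂ × E → E) : Prop where
  retr : Retr D Λ
  zero : ∀ w : ℂ, 0 < w.im → (w, (0 : E)) ∈ D
  dec : ∀ ζ : ℂ, 0 < ζ.im → ∀ p ∈ D, ∀ c : ℂ, ‖c‖ * dk ζ p.1 ≤ 1 → (ζ, c • Λ ζ p) ∈ D

/-- ASM: slice localisation over the half plane -/
def S_asm : Prop :=
  ∀ (N : ℕ) (C : ℝ), ∃ C' : ℝ, ∀ (E : Type) [NormedAddCommGroup E] [NormedSpace ℂ E]
    [FiniteDimensional ℂ E] (D : Set (ℂ × E)) (Λ : ℂ → ℂ × E → E), Tube D Λ →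
    ∀ F : Fin N → ℂ × E → ℂ, (∀ i, DifferentiableOn ℂ (F i) D) → (∀ i, ∀ p ∈ D, ‖F i p‖ ≤ 1) →
      (∀ a : ℂ, 0 < a.im → ∃ (g : Fin N → ℂ × E → ℂ) (g₀ : ℂ × E → ℂ),
        (∀ i, DifferentiableOn ℂ (g i) D) ∧ DifferentiableOn ℂ g₀ D ∧
        (∀ i, ∀ p ∈ D, ‖g i p‖ ≤ C) ∧ (∀ p ∈ D, ‖g₀ p‖ ≤ C) ∧
        ∀ p ∈ D, ∑ i, F i p * g i p + (p.1 - a) / (p.1 - starRingEnd ℂ a) * g₀ p = 1) →
      ∃ h : Fin N → ℂ × E → ℂ, (∀ i, DifferentiableOn ℂ (h i) D) ∧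
        (∀ i, ∀ p ∈ D, ‖h i p‖ ≤ C') ∧ ∀ p ∈ D, ∑ i, F i p * h i p = 1

/-- the factor `√((1 - |c|²)(1 - |z|²)) / |1 - conj c z|` -/
noncomputable def dd (c z : ℂ) : ℝ :=
  √((1 - ‖c‖ ^ 2) * (1 - ‖z‖ ^ 2)) / ‖1 - starRingEnd ℂ c * z‖

/-- the same over the disc -/
structure TubeD {E : Type} [NormedAddCommGroup E] [NormedSpace ℂ E] [FiniteDimensional ℂ E]
    (D : Set (ℂ × E)) (Λ : ℂ → ℂ × E → E) : Prop where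
  retr : RetrU (ball (0 : ℂ) 1) D Λ
  zero : ∀ c ∈ ball (0 : ℂ) 1, (c, (0 : E)) ∈ D
  dec : ∀ c ∈ ball (0 : ℂ) 1, ∀ p ∈ D, ∀ t : ℂ, ‖t‖ * dd c p.1 ≤ 1 → (c, t • Λ c p) ∈ D

/-- DISC: slice localisation over the disc -/
def S_disc : Prop :=
  ∀ (N : ℕ) (C : ℝ), ∃ C' : ℝ, ∀ (E : Type) [NormedAddCommGroup E] [NormedSpace ℂ E]
    [FiniteDimensional ℂ E] (D : Set (ℂ × E)) (Λ : ℂ → ℂ × E → E), TubeD D Λ →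
    ∀ F : Fin N → ℂ × E → ℂ, (∀ i, DifferentiableOn ℂ (F i) D) → (∀ i, ∀ p ∈ D, ‖F i p‖ ≤ 1) →
      (∀ a ∈ ball (0 : ℂ) 1, ∃ (g : Fin N → ℂ × E → ℂ) (g₀ : ℂ × E → ℂ),
        (∀ i, DifferentiableOn ℂ (g i) D) ∧ DifferentiableOn ℂ g₀ D ∧
        (∀ i, ∀ p ∈ D, ‖g i p‖ ≤ C) ∧ (∀ p ∈ D, ‖g₀ p‖ ≤ C) ∧
        ∀ p ∈ D, ∑ i, F i p * g i p + (p.1 - a) / (1 - starRingEnd ℂ a * p.1) * g₀ p = 1) →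
      ∃ h : Fin N → ℂ × E → ℂ, (∀ i, DifferentiableOn ℂ (h i) D) ∧
        (∀ i, ∀ p ∈ D, ‖h i p‖ ≤ C') ∧ ∀ p ∈ D, ∑ i, F i p * h i p = 1

/-- DU: the domains `|z|² + ∑ exp (2 u_j(z)) |y_j|² < 1`, `u_j` convex of class `C¹` -/
def S_Du : Prop :=
  ∀ (n : ℕ) (u : Fin n → ℂ → ℝ), (∀ j, ConvexOn ℝ (ball (0 : ℂ) 1) (u j)) →
    (∀ j, ContDiffOn ℝ 1 (u j) (ball (0 : ℂ) 1)) →
    ∃ Λ : ℂ → ℂ × (Fin n → ℂ) → (Fin n → ℂ),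
      TubeD {p : ℂ × (Fin n → ℂ) | ‖p.1‖ ^ 2 + ∑ j, Real.exp (2 * u j p.1) * ‖p.2 j‖ ^ 2 < 1} Λ

end Pool.Agent.W732.Cor
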