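import Mathlib
import Pool.Agent.W732.Cor.Stm
import Pool.Agent.W732.Cor.Stm2

/-!
Assembly, second half: from smooth solutions to holomorphic ones.
-/

set_option autoImplicit false

open MeasureTheory Metric Set Filter Topology Complex
open scoped ContDiff

namespace Pool.Agent.W732.Cor

open Pool.Agent.H720R2.HP Pool.Agent.H788R3.Cor2

variable {E : Type} [NormedAddCommGroup E] [NormedSpace ℂ E] [FiniteDimensional ℂ E]

/-- smooth solutions, holomorphic in `y` -/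
structure PU {N : ℕ} (D : Set (ℂ × E)) (F Φ B : Fin N → ℂ × E → ℂ) (M M' : ℝ) : Prop where
  cP : ∀ i, ContinuousOn (Φ i) D
  cB : ∀ i, ContinuousOn (B i) D
  bP : ∀ i, ∀ p ∈ D, ‖Φ i p‖ ≤ M
  bB : ∀ i, ∀ p ∈ D, ‖B i p‖ ≤ M' / p.1.im
  yP : ∀ i w, DifferentiableOn ℂ (fun y => Φ i (w, y)) {y | (w, y) ∈ D}
  yB : ∀ i w, DifferentiableOn ℂ (fun y => B i (w, y)) {y | (w, y) ∈ D}
  wd : ∀ i y, WD {w | (w, y) ∈ D} (fun w => Φ i (w, y)) (fun w => B i (w, y))
  s1 : ∀ p ∈ D, ∑ i, F i p * Φ i p = 1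
  s0 : ∀ p ∈ D, ∑ i, F i p * B i p = 0

theorem dk_nonneg (ζ w : ℂ) : 0 ≤ dk ζ w := by unfold dk; positivity

theorem dk_le_one {ζ w : ℂ} (hζ : 0 < ζ.im) (hw : 0 < w.im) : dk ζ w ≤ 1 := by
  unfold dk
  have h2 := den_pos hζ hw.le
  rw [div_le_one h2]
  have h1 : w.im + ζ.im ≤ ‖w - starRingEnd ℂ ζ‖ := im_add_le
  refine le_trans ?_ h1
  have h3 : √(ζ.im * w.im) ≤ (w.im + ζ.im) / 2 := by
    rw [Real.sqrt_le_left (by linarith)]
    nlinarith [sq_nonneg (w.im - ζ.im)]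
  linarith

theorem dk_pos {ζ w : ℂ} (hζ : 0 < ζ.im) (hw : 0 < w.im) : 0 < dk ζ w := by
  unfold dk
  have h2 := den_pos hζ hw.le
  have : 0 < √(ζ.im * w.im) := Real.sqrt_pos.2 (mul_pos hζ hw)
  positivity

theorem dk_self {ζ : ℂ} (hζ : 0 < ζ.im) : dk ζ ζ = 1 := by
  unfold dk
  have h1 : ζ - starRingEnd ℂ ζ = 2 * I * (ζ.im : ℂ) := by
    apply Complex.ext <;> simp
    ring
  rw [h1, Real.sqrt_mul_self hζ.le, norm_mul, norm_mul, Complex.norm_real, norm_I,
    Complex.norm_ofNat, Real.norm_of_nonneg hζ.le]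
  field_simp

/-- Schwarz lemma along the fibres -/
theorem schwarz {D : Set (ℂ × E)} {Λ : ℂ → ℂ × E → E} (hT : Tube D Λ) {r : ℂ × E → ℂ} {R : ℝ}
    (hr : DifferentiableOn ℂ r D) (hb : ∀ p ∈ D, ‖r p‖ ≤ R)
    (h0 : ∀ w : ℂ, 0 < w.im → r (w, 0) = 0) {ζ : ℂ} (hζ : 0 < ζ.im) {p : ℂ × E} (hp : p ∈ D) :
    ‖r (ζ, Λ ζ p)‖ ≤ R * dk ζ p.1 := by
  have hw := hT.retr.im p hp
  set d := dk ζ p.1 with hd
  have hd0 : 0 < d := dk_pos hζ hw
  have hd1 : d ≤ 1 := dk_le_one hζ hw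
  rcases hd1.lt_or_eq with hlt | heq
  · set k : ℂ → ℂ := fun c => r (ζ, c • Λ ζ p) with hk
    have hmem : ∀ c ∈ ball (0 : ℂ) (1 / d), (ζ, c • Λ ζ p) ∈ D := by
      intro c hc
      refine hT.dec ζ hζ p hp c ?_
      rw [mem_ball_zero_iff, lt_div_iff₀ hd0] at hc
      exact hc.le
    have hkd : DifferentiableOn ℂ k (ball 0 (1 / d)) := by
      refine hr.comp ?_ hmem
      exact (differentiable_const _ |>.prodMk (differentiable_id.smul_const _)).differentiableOn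
    have hR0 : 0 ≤ R := (norm_nonneg _).trans (hb p hp)
    have hk0 : k 0 = 0 := by
      simp only [hk, zero_smul]
      exact h0 ζ hζ
    have h1 : (1 : ℂ) ∈ ball (0 : ℂ) (1 / d) := by
      rw [mem_ball_zero_iff, norm_one, lt_div_iff₀ hd0]
      linarith
    have hmaps : MapsTo k (ball 0 (1 / d)) (closedBall (k 0) R) := by
      intro c hc
      rw [hk0, mem_closedBall_zero_iff]
      exact hb _ (hmem c hc)
    have ho : (fun z => k z - k 0) =o[𝓝 0] fun z => ‖z - 0‖ ^ 0 := by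
      simp only [pow_zero]
      rw [Asymptotics.isLittleO_one_iff]
      have hc : ContinuousAt k 0 :=
        (hkd.differentiableAt (ball_mem_nhds _ (by positivity))).continuousAt
      have := hc.tendsto.sub_const (k 0)
      simpa using this
    have h := Complex.dist_le_mul_div_pow_of_mapsTo_ball_of_isLittleO (n := 0) hkd hmaps ho h1
    rw [dist_eq_norm, dist_eq_norm, zero_add, pow_one, hk0, sub_zero, sub_zero, norm_one] at h
    simp only [hk, one_smul] at h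
    rw [one_div_one_div] at h
    exact h
  · rw [heq, mul_one]
    exact hb _ (hT.retr.mem ζ hζ p hp)

omit [NormedAddCommGroup E] [NormedSpace ℂ E] [FiniteDimensional ℂ E] in
theorem VV_neg (Λ : ℂ → ℂ × E → E) (q q' : ℂ × E → ℂ) (h : ∀ p, q' p = -q p) (p : ℂ × E) :
    VV Λ q' p = -VV Λ q p := by
  unfold VV
  rw [← mul_neg, ← integral_neg]
  congr 2
  funext ζ
  by_cases hζ : ζ ∈ UH
  · rw [indicator_of_mem hζ, indicator_of_mem hζ, h]
    ring
  · rw [indicator_of_notMem hζ, indicator_of_notMem hζ]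
    ring

/-- antisymmetric sums vanish -/
theorem antisymm {N : ℕ} (f : Fin N → ℂ) (V : Fin N → Fin N → ℂ) (h : ∀ i j, V j i = -V i j) :
    ∑ i, f i * ∑ j, V i j * f j = 0 := by
  have h1 : ∑ i, f i * ∑ j, V i j * f j = ∑ i, ∑ j, f i * (V i j * f j) :=
    Finset.sum_congr rfl fun i _ => Finset.mul_sum _ _ _
  have h2 : ∑ i, ∑ j, f i * (V i j * f j) = -∑ i, ∑ j, f i * (V i j * f j) := by
    conv_lhs => rw [Finset.sum_comm]
    rw [← Finset.sum_neg_distrib]
    refine Finset.sum_congr rfl fun j _ => ?_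
    rw [← Finset.sum_neg_distrib]
    refine Finset.sum_congr rfl fun i _ => ?_
    rw [h j i]
    ring
  rw [h1]
  have h3 : (2 : ℂ) * ∑ i, ∑ j, f i * (V i j * f j) = 0 := by
    linear_combination h2
  simpa using h3

theorem partB {c₀ : ℝ} (hc₀ : 0 ≤ c₀)
    (hop : ∀ (D : Set (ℂ × E)) (Λ : ℂ → ℂ × E → E), Retr D Λ →
    ∀ (q : ℂ × E → ℂ) (A : ℝ), 0 ≤ A → ContinuousOn q D →
      (∀ ζ : ℂ, DifferentiableOn ℂ (fun y : E => q (ζ, y)) {y | (ζ, y) ∈ D}) →
      (∀ ζ : ℂ, 0 < ζ.im → ∀ p ∈ D, ‖q (ζ, Λ ζ p)‖ ≤ A / ζ.im * dk ζ p.1) →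
      (∀ p ∈ D, ‖VV Λ q p‖ ≤ c₀ * A) ∧
      (∀ y : E, WD {w : ℂ | (w, y) ∈ D} (fun w => VV Λ q (w, y)) (fun w => q (w, y))) ∧
      ∀ w : ℂ, DifferentiableOn ℂ (fun y : E => VV Λ q (w, y)) {y | (w, y) ∈ D})
    {N : ℕ} {D : Set (ℂ × E)} {Λ : ℂ → ℂ × E → E} (hT : Tube D Λ)
    {F Φ B : Fin N → ℂ × E → ℂ} {M M' : ℝ} (hM : 0 ≤ M) (hM' : 0 ≤ M') (hP : PU D F Φ B M M')
    (hF : ∀ i, DifferentiableOn ℂ (F i) D) (hFb : ∀ i, ∀ p ∈ D, ‖F i p‖ ≤ 1)
    {h : Fin N → ℂ → ℂ} {Cb : ℝ} (hCb : 0 ≤ Cb) (hh : ∀ i, DifferentiableOn ℂ (h i) UH)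
    (hhb : ∀ i, ∀ w ∈ UH, ‖h i w‖ ≤ Cb) (hh1 : ∀ w ∈ UH, ∑ i, F i (w, 0) * h i w = 1) :
    ∃ g : Fin N → ℂ × E → ℂ, (∀ i, DifferentiableOn ℂ (g i) D) ∧
      (∀ i, ∀ p ∈ D, ‖g i p‖ ≤ Cb + (1 + N * Cb) * M +
        N * (c₀ * ((1 + N * Cb) * (2 * (M * M'))))) ∧
      ∀ p ∈ D, ∑ i, F i p * g i p = 1 := by
  classical
  have hD : IsOpen D := hT.retr.op
  have him : ∀ p ∈ D, p.1 ∈ UH := fun p hp => hT.retr.im p hp
  have hsl : ∀ y : E, IsOpen {w : ℂ | (w, y) ∈ D} := fun y => slice_open hT.retr y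
  -- the defect
  set r : ℂ × E → ℂ := fun p => 1 - ∑ i, F i p * h i p.1 with hr
  set R : ℝ := 1 + N * Cb with hR
  have hR0 : 0 ≤ R := by positivity
  have hh' : ∀ i, DifferentiableOn ℂ (fun p : ℂ × E => h i p.1) D := fun i =>
    (hh i).comp differentiableOn_fst him
  have hrd : DifferentiableOn ℂ r D :=
    (differentiableOn_const _).sub (DifferentiableOn.fun_sum fun i _ => (hF i).mul (hh' i))
  have hrb : ∀ p ∈ D, ‖r p‖ ≤ R := by
    intro p hp
    refine (norm_sub_le _ _).trans ?_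
    rw [norm_one, hR]
    gcongr
    refine (norm_sum_le _ _).trans ?_
    calc ∑ i, ‖F i p * h i p.1‖ ≤ ∑ _i : Fin N, 1 * Cb := by
          refine Finset.sum_le_sum fun i _ => ?_
          rw [norm_mul]
          exact mul_le_mul (hFb i p hp) (hhb i _ (him p hp)) (norm_nonneg _) zero_le_one
      _ = N * Cb := by simp
  have hr0 : ∀ w : ℂ, 0 < w.im → r (w, 0) = 0 := by
    intro w hw
    simp only [hr]
    rw [hh1 w hw, sub_self]
  -- the forms
  set q : Fin N → Fin N → ℂ × E → ℂ := fun i j p => r p * (Φ i p * B j p - Φ j p * B i p) with hq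
  set A : ℝ := R * (2 * (M * M')) with hA
  have hA0 : 0 ≤ A := by positivity
  have hqc : ∀ i j, ContinuousOn (q i j) D := fun i j =>
    hrd.continuousOn.mul (((hP.cP i).mul (hP.cB j)).sub ((hP.cP j).mul (hP.cB i)))
  have hry : ∀ w : ℂ, DifferentiableOn ℂ (fun y : E => r (w, y)) {y | (w, y) ∈ D} := by
    intro w
    refine hrd.comp ?_ (fun y hy => hy)
    exact (differentiable_const _ |>.prodMk differentiable_id).differentiableOn
  have hFy : ∀ i, ∀ w : ℂ, DifferentiableOn ℂ (fun y : E => F i (w, y)) {y | (w, y) ∈ D} := by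
    intro i w
    refine (hF i).comp ?_ (fun y hy => hy)
    exact (differentiable_const _ |>.prodMk differentiable_id).differentiableOn
  have hqy : ∀ i j, ∀ ζ : ℂ, DifferentiableOn ℂ (fun y : E => q i j (ζ, y)) {y | (ζ, y) ∈ D} :=
    fun i j ζ => (hry ζ).mul (((hP.yP i ζ).mul (hP.yB j ζ)).sub ((hP.yP j ζ).mul (hP.yB i ζ)))
  have hqb : ∀ i j, ∀ ζ : ℂ, 0 < ζ.im → ∀ p ∈ D,
      ‖q i j (ζ, Λ ζ p)‖ ≤ A / ζ.im * dk ζ p.1 := by
    intro i j ζ hζ p hp
    have hm := hT.retr.mem ζ hζ p hp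
    have h1 := schwarz hT hrd hrb hr0 hζ hp
    have h2 : ∀ i j, ‖Φ i (ζ, Λ ζ p) * B j (ζ, Λ ζ p)‖ ≤ M * (M' / ζ.im) := by
      intro i j
      rw [norm_mul]
      exact mul_le_mul (hP.bP i _ hm) (hP.bB j _ hm) (norm_nonneg _) hM
    simp only [hq]
    rw [norm_mul]
    have h3 : ‖Φ i (ζ, Λ ζ p) * B j (ζ, Λ ζ p) - Φ j (ζ, Λ ζ p) * B i (ζ, Λ ζ p)‖ ≤
        2 * (M * (M' / ζ.im)) := by
      refine (norm_sub_le _ _).trans ?_
      linarith [h2 i j, h2 j i]
    calc ‖r (ζ, Λ ζ p)‖ * ‖Φ i (ζ, Λ ζ p) * B j (ζ, Λ ζ p) - Φ j (ζ, Λ ζ p) * B i (ζ, Λ ζ p)‖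
        ≤ (R * dk ζ p.1) * (2 * (M * (M' / ζ.im))) :=
          mul_le_mul h1 h3 (norm_nonneg _) (mul_nonneg hR0 (dk_nonneg _ _))
      _ = A / ζ.im * dk ζ p.1 := by rw [hA]; ring
  have hsol := fun i j => hop D Λ hT.retr (q i j) A hA0 (hqc i j) (hqy i j) (hqb i j)
  have hanti : ∀ i j p, VV Λ (q j i) p = -VV Λ (q i j) p := by
    intro i j p
    refine VV_neg Λ (q i j) (q j i) (fun p => ?_) p
    simp only [hq]
    ring
  -- the solution
  refine ⟨fun i p => h i p.1 + r p * Φ i p + ∑ j, VV Λ (q i j) p * F j p, ?_, ?_, ?_⟩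
  · intro i
    -- bounded
    have hb : ∀ p ∈ D, ‖h i p.1 + r p * Φ i p + ∑ j, VV Λ (q i j) p * F j p‖ ≤
        Cb + R * M + N * (c₀ * A) := by
      intro p hp
      refine (norm_add_le _ _).trans ?_
      refine add_le_add ((norm_add_le _ _).trans (add_le_add (hhb i _ (him p hp)) ?_)) ?_
      · rw [norm_mul]
        exact mul_le_mul (hrb p hp) (hP.bP i p hp) (norm_nonneg _) hR0
      · refine (norm_sum_le _ _).trans ?_
        calc ∑ j, ‖VV Λ (q i j) p * F j p‖ ≤ ∑ _j : Fin N, (c₀ * A) * 1 := by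
              refine Finset.sum_le_sum fun j _ => ?_
              rw [norm_mul]
              exact mul_le_mul ((hsol i j).1 p hp) (hFb j p hp) (norm_nonneg _) (by positivity)
          _ = N * (c₀ * A) := by simp
    refine osgood2 hD hb ?_ ?_
    · intro y
      have hrw : DifferentiableOn ℂ (fun w => r (w, y)) {w : ℂ | (w, y) ∈ D} := by
        refine hrd.comp ?_ (fun y hy => hy)
        exact (differentiable_id.prodMk (differentiable_const _)).differentiableOn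
      have hFw : ∀ j, DifferentiableOn ℂ (fun w => F j (w, y)) {w : ℂ | (w, y) ∈ D} := by
        intro j
        refine (hF j).comp ?_ (fun y hy => hy)
        exact (differentiable_id.prodMk (differentiable_const _)).differentiableOn
      have hhw : DifferentiableOn ℂ (fun w => h i w) {w : ℂ | (w, y) ∈ D} :=
        (hh i).mono (fun w hw => him _ hw)
      have w1 := (hP.wd i y).mul_holo (hsl y) hrw
      have w2 : ∀ j ∈ (Finset.univ : Finset (Fin N)), WD {w : ℂ | (w, y) ∈ D}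
          (fun w => VV Λ (q i j) (w, y) * F j (w, y)) (fun w => F j (w, y) * q i j (w, y)) := by
        intro j _
        refine (((hsol i j).2.1 y).mul_holo (hsl y) (hFw j)).congr (hsl y) (fun z _ => ?_)
          (fun z _ => rfl)
        ring
      have w3 := WD.sum (hsl y) (Finset.univ : Finset (Fin N)) w2
      have w4 := w1.add (hsl y) w3
      have hz : ∀ w ∈ {w : ℂ | (w, y) ∈ D}, r (w, y) * B i (w, y) +
          ∑ j, F j (w, y) * q i j (w, y) = 0 := by
        intro w hw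
        have e1 : ∑ j, F j (w, y) * q i j (w, y) =
            r (w, y) * (Φ i (w, y) * (∑ j, F j (w, y) * B j (w, y)) -
              B i (w, y) * ∑ j, F j (w, y) * Φ j (w, y)) := by
          rw [Finset.mul_sum, Finset.mul_sum, ← Finset.sum_sub_distrib, Finset.mul_sum]
          refine Finset.sum_congr rfl fun j _ => ?_
          simp only [hq]
          ring
        rw [e1, hP.s0 _ hw, hP.s1 _ hw]
        ring
      have h5 := w4.holo (hsl y) hz
      refine (hhw.add h5).congr (fun w _ => ?_)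
      simp only [Pi.add_apply]
      ring
    · intro w
      have k0 : DifferentiableOn ℂ (fun _ : E => h i w) {y | (w, y) ∈ D} :=
        differentiableOn_const _
      have k1 := (hry w).fun_mul (hP.yP i w)
      have k2 : DifferentiableOn ℂ (fun y => ∑ j, VV Λ (q i j) (w, y) * F j (w, y))
          {y | (w, y) ∈ D} :=
        DifferentiableOn.fun_sum fun j _ => ((hsol i j).2.2 w).fun_mul (hFy j w)
      exact (k0.fun_add k1).fun_add k2
  · intro i p hp
    refine (norm_add_le _ _).trans ?_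
    refine add_le_add ((norm_add_le _ _).trans (add_le_add (hhb i _ (him p hp)) ?_)) ?_
    · rw [norm_mul]
      exact mul_le_mul (hrb p hp) (hP.bP i p hp) (norm_nonneg _) hR0
    · refine (norm_sum_le _ _).trans ?_
      calc ∑ j, ‖VV Λ (q i j) p * F j p‖ ≤ ∑ _j : Fin N, (c₀ * A) * 1 := by
            refine Finset.sum_le_sum fun j _ => ?_
            rw [norm_mul]
            exact mul_le_mul ((hsol i j).1 p hp) (hFb j p hp) (norm_nonneg _) (by positivity)
        _ = N * (c₀ * A) := by simp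
  · intro p hp
    have e1 : ∑ i, F i p * (h i p.1 + r p * Φ i p + ∑ j, VV Λ (q i j) p * F j p) =
        ∑ i, F i p * h i p.1 + r p * ∑ i, F i p * Φ i p +
          ∑ i, F i p * ∑ j, VV Λ (q i j) p * F j p := by
      rw [Finset.mul_sum, ← Finset.sum_add_distrib, ← Finset.sum_add_distrib]
      refine Finset.sum_congr rfl fun i _ => ?_
      ring
    rw [e1, hP.s1 p hp, antisymm (fun i => F i p) (fun i j => VV Λ (q i j) p)
      (fun i j => hanti i j p)]
    simp only [hr]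
    ring

end Pool.Agent.W732.Cor
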