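import Mathlib
import Pool.Agent.W732.Cor.AsmB

/-!
Assembly, first half: gluing the local solutions with a partition of unity.
-/

set_option autoImplicit false

open MeasureTheory Metric Set Filter Topology Complex
open scoped ContDiff

namespace Pool.Agent.W732.Cor

open Pool.Agent.H720R2.HP Pool.Agent.H788R3.Cor2

variable {E : Type} [NormedAddCommGroup E] [NormedSpace ℂ E] [FiniteDimensional ℂ E]

/-- what we need from the partition of unity -/
structure PT (κ K : ℝ) (a : ℤ × ℤ → ℂ) (χ : ℤ × ℤ → ℂ → ℂ) : Prop where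
  ha : ∀ j, 0 < (a j).im
  hc : ∀ j, ContDiffOn ℝ 1 (χ j) UH
  hs : ∀ j, ∀ w ∈ UH, χ j w ≠ 0 → ‖w - a j‖ ≤ κ * (a j).im
  h1 : ∀ j, ∀ w ∈ UH, ‖χ j w‖ ≤ 1
  hd : ∀ j, ∀ w ∈ UH, ‖db (χ j) w‖ ≤ K / w.im
  hf : ∀ w₀ ∈ UH, ∃ S : Finset (ℤ × ℤ), S.card ≤ 16 ∧ ∃ r > 0, ball w₀ r ⊆ UH ∧
      ∀ w ∈ ball w₀ r, (∀ j, j ∉ S → χ j w = 0) ∧ ∑ j ∈ S, χ j w = 1

section

variable {κ K : ℝ} {a : ℤ × ℤ → ℂ} {χ : ℤ × ℤ → ℂ → ℂ}

theorem far_zero (hP : PT κ K a χ) {j : ℤ × ℤ} {w : ℂ} (hw : w ∈ UH)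
    (h : κ * (a j).im < ‖w - a j‖) : χ j =ᶠ[𝓝 w] fun _ => 0 := by
  have h1 : ∀ᶠ z in 𝓝 w, κ * (a j).im < ‖z - a j‖ := by
    have hc : Continuous fun z : ℂ => ‖z - a j‖ := by fun_prop
    exact hc.continuousAt.eventually_const_lt h
  filter_upwards [h1, isOpen_UH.mem_nhds hw] with z hz hzU
  by_contra hne
  exact absurd (hP.hs j z hzU hne) (not_le.2 hz)

theorem near_db (hP : PT κ K a χ) {j : ℤ × ℤ} {w : ℂ} (hw : w ∈ UH) (h : db (χ j) w ≠ 0) :
    ‖w - a j‖ ≤ κ * (a j).im := by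
  by_contra hcon
  push Not at hcon
  apply h
  rw [db_congr (far_zero hP hw hcon)]
  unfold db
  simp

/-- the local finite index set -/
noncomputable def SS (χ : ℤ × ℤ → ℂ → ℂ) (w : ℂ) : Finset (ℤ × ℤ) := by
  classical
  exact if h : ∃ S : Finset (ℤ × ℤ), S.card ≤ 16 ∧ ∃ r > 0, ball w r ⊆ UH ∧
      ∀ z ∈ ball w r, (∀ j, j ∉ S → χ j z = 0) ∧ ∑ j ∈ S, χ j z = 1 then h.choose else ∅

theorem SS_spec (hP : PT κ K a χ) {w : ℂ} (hw : w ∈ UH) : (SS χ w).card ≤ 16 ∧ ∃ r > 0,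
    ball w r ⊆ UH ∧ ∀ z ∈ ball w r, (∀ j, j ∉ SS χ w → χ j z = 0) ∧ ∑ j ∈ SS χ w, χ j z = 1 := by
  have h := hP.hf w hw
  unfold SS
  rw [dif_pos h]
  exact h.choose_spec

theorem SS_zero (hP : PT κ K a χ) {w : ℂ} (hw : w ∈ UH) {j : ℤ × ℤ} (hj : j ∉ SS χ w) :
    χ j w = 0 ∧ db (χ j) w = 0 := by
  obtain ⟨-, r, hr, -, h⟩ := SS_spec hP hw
  refine ⟨(h w (mem_ball_self hr)).1 j hj, ?_⟩
  have h1 : χ j =ᶠ[𝓝 w] fun _ => 0 := by
    filter_upwards [ball_mem_nhds w hr] with z hz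
    exact (h z hz).1 j hj
  rw [db_congr h1]
  unfold db
  simp

/-- sums over the local index sets agree -/
theorem sum_eq (c : ℤ × ℤ → ℂ) (S T : Finset (ℤ × ℤ)) (hS : ∀ j, j ∉ S → c j = 0)
    (hT : ∀ j, j ∉ T → c j = 0) : ∑ j ∈ S, c j = ∑ j ∈ T, c j := by
  classical
  have h1 : ∑ j ∈ S, c j = ∑ j ∈ S ∪ T, c j :=
    Finset.sum_subset Finset.subset_union_left (fun j _ hj => hS j hj)
  have h2 : ∑ j ∈ T, c j = ∑ j ∈ S ∪ T, c j :=
    Finset.sum_subset Finset.subset_union_right (fun j _ hj => hT j hj)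
  rw [h1, h2]

theorem sum_db (hP : PT κ K a χ) {w : ℂ} (hw : w ∈ UH) : ∑ j ∈ SS χ w, db (χ j) w = 0 := by
  obtain ⟨-, r, hr, hsub, h⟩ := SS_spec hP hw
  have hd : ∀ j, DifferentiableAt ℝ (χ j) w := fun j =>
    ((hP.hc j).differentiableOn one_ne_zero w hw).differentiableAt (isOpen_UH.mem_nhds hw)
  have h1 : db (fun z => ∑ j ∈ SS χ w, χ j z) w = ∑ j ∈ SS χ w, db (χ j) w := by
    unfold db
    rw [fderiv_fun_sum (fun j _ => hd j)]
    simp only [_root_.sum_apply]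
    rw [Finset.mul_sum, ← Finset.sum_add_distrib, Finset.sum_div]
  rw [← h1]
  have h2 : (fun z => ∑ j ∈ SS χ w, χ j z) =ᶠ[𝓝 w] fun _ => 1 := by
    filter_upwards [ball_mem_nhds w hr] with z hz
    exact (h z hz).2
  rw [db_congr h2]
  unfold db
  simp

/-- the glued functions -/
noncomputable def Glu (χ : ℤ × ℤ → ℂ → ℂ) (c : ℤ × ℤ → ℂ → ℂ) (f : ℤ × ℤ → ℂ × E → ℂ)
    (p : ℂ × E) : ℂ := ∑ j ∈ SS χ p.1, c j p.1 * f j p

variable {D : Set (ℂ × E)}

omit [NormedAddCommGroup E] [NormedSpace ℂ E] [FiniteDimensional ℂ E] in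
/-- near a point the sum is over a fixed index set -/
theorem Glu_near (hP : PT κ K a χ) {c : ℤ × ℤ → ℂ → ℂ}
    (hc : ∀ w ∈ UH, ∀ j, χ j =ᶠ[𝓝 w] (fun _ => 0) → c j w = 0) {f : ℤ × ℤ → ℂ × E → ℂ}
    {w₀ : ℂ} (hw : w₀ ∈ UH) : ∀ᶠ w in 𝓝 w₀, ∀ y : E,
      Glu χ c f (w, y) = ∑ j ∈ SS χ w₀, c j w * f j (w, y) := by
  obtain ⟨-, r, hr, hsub, h⟩ := SS_spec hP hw
  filter_upwards [ball_mem_nhds w₀ hr] with w hw' y
  unfold Glu
  refine sum_eq _ _ _ (fun j hj => ?_) (fun j hj => ?_)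
  · obtain ⟨-, r', hr', -, h'⟩ := SS_spec hP (hsub hw')
    have : χ j =ᶠ[𝓝 w] fun _ => 0 := by
      filter_upwards [ball_mem_nhds w hr'] with z hz
      exact (h' z hz).1 j hj
    simp only [hc w (hsub hw') j this, zero_mul]
  · have : χ j =ᶠ[𝓝 w] fun _ => 0 := by
      filter_upwards [isOpen_ball.mem_nhds hw'] with z hz
      exact (h z hz).1 j hj
    simp only [hc w (hsub hw') j this, zero_mul]

theorem chi_hc : ∀ w ∈ UH, ∀ j, χ j =ᶠ[𝓝 w] (fun _ => 0) → χ j w = 0 :=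
  fun _ _ _ h => h.self_of_nhds

theorem dchi_hc : ∀ w ∈ UH, ∀ j, χ j =ᶠ[𝓝 w] (fun _ => 0) → db (χ j) w = 0 := by
  intro w _ j h
  rw [db_congr h]
  unfold db
  simp

omit [FiniteDimensional ℂ E] in
/-- Local solutions: `φ` is holomorphic on the part of `D` over the disc around `a j`. -/
theorem partA (hP : PT κ K a χ) (hK : 0 ≤ K) {κ' : ℝ} (hκ : κ < κ') (hD : IsOpen D)
    (him : ∀ p ∈ D, p.1 ∈ UH) {N : ℕ} (F : Fin N → ℂ × E → ℂ)
    {M : ℝ} (hM : 0 ≤ M) (f : Fin N → ℤ × ℤ → ℂ × E → ℂ)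
    (hf : ∀ i j, ∀ p ∈ D, ‖p.1 - a j‖ < κ' * (a j).im → DifferentiableAt ℂ (f i j) p)
    (hfb : ∀ i j, ∀ p ∈ D, ‖p.1 - a j‖ ≤ κ * (a j).im → ‖f i j p‖ ≤ M)
    (hid : ∀ j, ∀ p ∈ D, ‖p.1 - a j‖ ≤ κ * (a j).im → ∑ i, F i p * f i j p = 1) :
    ∃ Φ B : Fin N → ℂ × E → ℂ, PU D F Φ B (16 * M) (16 * (K * M)) := by
  classical
  have hslice : ∀ y : E, IsOpen {w : ℂ | (w, y) ∈ D} := fun y =>
    hD.preimage (by fun_prop : Continuous fun w : ℂ => (w, y))
  have hκa : ∀ j, κ * (a j).im < κ' * (a j).im := fun j =>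
    mul_lt_mul_of_pos_right hκ (hP.ha j)
  -- the general continuity statement
  have hcont : ∀ (c : ℤ × ℤ → ℂ → ℂ) (i : Fin N),
      (∀ w ∈ UH, ∀ j, χ j =ᶠ[𝓝 w] (fun _ => 0) → c j w = 0) →
      (∀ j, ContinuousOn (c j) UH) → ContinuousOn (Glu χ c (f i)) D := by
    intro c i hc hcc
    rintro ⟨w₀, y₀⟩ hp
    have hw : w₀ ∈ UH := him _ hp
    apply ContinuousAt.continuousWithinAt
    have hev : Glu χ c (f i) =ᶠ[𝓝 (w₀, y₀)] fun p => ∑ j ∈ SS χ w₀, c j p.1 * f i j p := by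
      have h1 := (continuous_fst (X := ℂ) (Y := E)).tendsto (w₀, y₀)
      filter_upwards [h1.eventually (Glu_near hP hc (f := f i) hw)] with p hp'
      exact hp' p.2
    refine ContinuousAt.congr ?_ hev.symm
    refine tendsto_finsetSum _ (fun j _ => ?_)
    by_cases hj : ‖w₀ - a j‖ < κ' * (a j).im
    · refine ContinuousAt.mul ?_ ?_
      · exact ContinuousAt.comp (f := fun p : ℂ × E => p.1) (x := (w₀, y₀))
          ((hcc j).continuousAt (isOpen_UH.mem_nhds hw)) continuousAt_fst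
      · exact (hf i j _ hp hj).continuousAt
    · push Not at hj
      have h2 : ∀ᶠ z in 𝓝 w₀, χ j =ᶠ[𝓝 z] fun _ => 0 :=
        eventually_eventually_nhds.2 (far_zero hP hw ((hκa j).trans_le hj))
      have h3 : (fun p : ℂ × E => c j p.1 * f i j p) =ᶠ[𝓝 (w₀, y₀)] fun _ => 0 := by
        have h1 := (continuous_fst (X := ℂ) (Y := E)).tendsto (w₀, y₀)
        filter_upwards [h1.eventually h2, h1.eventually (isOpen_UH.mem_nhds hw)] with p hp1 hp2
        rw [hc p.1 hp2 j hp1, zero_mul]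
      exact (continuousAt_const.congr h3.symm)
  have hdbc : ∀ j, ContinuousOn (db (χ j)) UH := by
    intro j
    have h1 : ContinuousOn (fderiv ℝ (χ j)) UH :=
      (hP.hc j).continuousOn_fderiv_of_isOpen isOpen_UH le_rfl
    unfold db
    exact ((h1.clm_apply continuousOn_const).add
      (continuousOn_const.mul (h1.clm_apply continuousOn_const))).div_const 2
  -- `y`-holomorphy
  have hyh : ∀ (c : ℤ × ℤ → ℂ → ℂ) (i : Fin N),
      (∀ w ∈ UH, ∀ j, κ * (a j).im < ‖w - a j‖ → c j w = 0) →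
      ∀ w, DifferentiableOn ℂ (fun y : E => Glu χ c (f i) (w, y)) {y | (w, y) ∈ D} := by
    intro c i hc w
    have hterm : ∀ j ∈ SS χ w, DifferentiableOn ℂ (fun y : E => c j w * f i j (w, y))
        {y | (w, y) ∈ D} := by
      intro j _
      by_cases hj : ‖w - a j‖ < κ' * (a j).im
      · intro y hy
        have h1 := hf i j (w, y) hy hj
        have h2 : DifferentiableAt ℂ (fun y : E => (w, y)) y :=
          (differentiableAt_const _).prodMk differentiableAt_id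
        have h3 : DifferentiableAt ℂ (fun y : E => f i j (w, y)) y :=
          DifferentiableAt.comp (g := f i j) (f := fun y : E => (w, y)) y h1 h2
        exact (h3.const_mul (c j w)).differentiableWithinAt
      · push Not at hj
        intro y hy
        have h0 : c j w = 0 := hc w (him _ hy) j ((hκa j).trans_le hj)
        simp only [h0, zero_mul]
        exact differentiableWithinAt_const _
    exact DifferentiableOn.fun_sum hterm
  have hchi0 : ∀ w ∈ UH, ∀ j, κ * (a j).im < ‖w - a j‖ → χ j w = 0 := fun w hw j h =>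
    (far_zero hP hw h).self_of_nhds
  have hdchi0 : ∀ w ∈ UH, ∀ j, κ * (a j).im < ‖w - a j‖ → db (χ j) w = 0 := fun w hw j h =>
    dchi_hc w hw j (far_zero hP hw h)
  -- bounds
  have hbd : ∀ (c : ℤ × ℤ → ℂ → ℂ) (i : Fin N) (L : ℂ → ℝ), (∀ w ∈ UH, 0 ≤ L w) →
      (∀ w ∈ UH, ∀ j, κ * (a j).im < ‖w - a j‖ → c j w = 0) →
      (∀ w ∈ UH, ∀ j, ‖c j w‖ ≤ L w) →
      ∀ p ∈ D, ‖Glu χ c (f i) p‖ ≤ 16 * (L p.1 * M) := by
    intro c i L hL hc hcb p hp
    have hw := him p hp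
    unfold Glu
    have h1 : ∀ j ∈ SS χ p.1, ‖c j p.1 * f i j p‖ ≤ L p.1 * M := by
      intro j _
      rw [norm_mul]
      by_cases hj : ‖p.1 - a j‖ ≤ κ * (a j).im
      · exact mul_le_mul (hcb _ hw j) (hfb i j p hp hj) (norm_nonneg _) (hL _ hw)
      · push Not at hj
        rw [hc _ hw j hj, norm_zero, zero_mul]
        exact mul_nonneg (hL _ hw) hM
    refine (norm_sum_le _ _).trans ((Finset.sum_le_sum h1).trans ?_)
    rw [Finset.sum_const, nsmul_eq_mul]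
    have h2 : ((SS χ p.1).card : ℝ) ≤ 16 := by exact_mod_cast (SS_spec hP hw).1
    exact mul_le_mul_of_nonneg_right h2 (mul_nonneg (hL _ hw) hM)
  -- sums
  have hsum : ∀ (c : ℤ × ℤ → ℂ → ℂ),
      (∀ w ∈ UH, ∀ j, κ * (a j).im < ‖w - a j‖ → c j w = 0) →
      ∀ p ∈ D, ∑ i, F i p * Glu χ c (f i) p = ∑ j ∈ SS χ p.1, c j p.1 := by
    intro c hc p hp
    have hw := him p hp
    unfold Glu
    have h1 : ∑ i, F i p * ∑ j ∈ SS χ p.1, c j p.1 * f i j p =
        ∑ j ∈ SS χ p.1, c j p.1 * ∑ i, F i p * f i j p := by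
      simp only [Finset.mul_sum]
      rw [Finset.sum_comm]
      refine Finset.sum_congr rfl fun j _ => Finset.sum_congr rfl fun i _ => ?_
      ring
    rw [h1]
    refine Finset.sum_congr rfl fun j _ => ?_
    by_cases hj : ‖p.1 - a j‖ ≤ κ * (a j).im
    · rw [hid j p hp hj, mul_one]
    · push Not at hj
      rw [hc _ hw j hj, zero_mul]
  refine ⟨fun i => Glu χ χ (f i), fun i => Glu χ (fun j => db (χ j)) (f i), ?_⟩
  refine ⟨fun i => hcont χ i chi_hc (fun j => (hP.hc j).continuousOn),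
    fun i => hcont (fun j => db (χ j)) i dchi_hc hdbc, ?_, ?_, fun i w => hyh χ i hchi0 w,
    fun i w => hyh (fun j => db (χ j)) i hdchi0 w, ?_, ?_, ?_⟩
  · intro i p hp
    have h1 := hbd χ i (fun _ => 1) (fun _ _ => zero_le_one) hchi0 (fun w hw j => hP.h1 j w hw) p hp
    rwa [one_mul] at h1
  · intro i p hp
    have h1 := hbd (fun j => db (χ j)) i (fun w => K / w.im)
      (fun w hw => div_nonneg hK (le_of_lt hw)) hdchi0 (fun w hw j => hP.hd j w hw) p hp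
    refine h1.trans (le_of_eq ?_)
    ring
  · intro i y
    have hev : ∀ w₀ ∈ {w : ℂ | (w, y) ∈ D}, (fun w => Glu χ χ (f i) (w, y)) =ᶠ[𝓝 w₀]
        fun w => ∑ j ∈ SS χ w₀, χ j w * f i j (w, y) := by
      intro w₀ hw₀
      filter_upwards [Glu_near hP chi_hc (f := f i) (him _ hw₀)] with w hw
      exact hw y
    -- local regularity of the terms
    have hterm : ∀ w₀ ∈ {w : ℂ | (w, y) ∈ D}, ∀ j,
        ContDiffAt ℝ 1 (fun w => χ j w * f i j (w, y)) w₀ ∧
        db (fun w => χ j w * f i j (w, y)) w₀ = db (χ j) w₀ * f i j (w₀, y) := by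
      intro w₀ hw₀ j
      have hw : w₀ ∈ UH := him _ hw₀
      by_cases hj : ‖w₀ - a j‖ < κ' * (a j).im
      · have h1 : ∀ᶠ w in 𝓝 w₀, DifferentiableAt ℂ (fun w => f i j (w, y)) w := by
          have hc : Continuous fun z : ℂ => ‖z - a j‖ := by fun_prop
          filter_upwards [(hslice y).mem_nhds hw₀, hc.continuousAt.eventually_lt_const hj]
            with w hw1 hw2
          have h2 := hf i j (w, y) hw1 hw2
          exact DifferentiableAt.comp (f := fun w : ℂ => (w, y)) w h2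
            (differentiableAt_id.prodMk (differentiableAt_const _))
        have h3 : AnalyticAt ℂ (fun w => f i j (w, y)) w₀ :=
          Complex.analyticAt_iff_eventually_differentiableAt.2 h1
        have h4 : ContDiffAt ℝ 1 (fun w => f i j (w, y)) w₀ :=
          (h3.contDiffAt (n := 1)).restrict_scalars ℝ
        have h5 : ContDiffAt ℝ 1 (χ j) w₀ := (hP.hc j).contDiffAt (isOpen_UH.mem_nhds hw)
        refine ⟨h5.mul h4, ?_⟩
        rw [db_mul (h5.differentiableAt one_ne_zero) (h4.differentiableAt one_ne_zero),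
          db_holo h1.self_of_nhds]
        ring
      · push Not at hj
        have h2 := far_zero hP hw ((hκa j).trans_le hj)
        have h3 : (fun w => χ j w * f i j (w, y)) =ᶠ[𝓝 w₀] fun _ => 0 := by
          filter_upwards [h2] with w hw
          rw [hw, zero_mul]
        refine ⟨contDiffAt_const.congr_of_eventuallyEq h3, ?_⟩
        rw [db_congr h3, db_congr h2]
        unfold db
        simp
    have hC1 : ContDiffOn ℝ 1 (fun w => Glu χ χ (f i) (w, y)) {w : ℂ | (w, y) ∈ D} := by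
      intro w₀ hw₀
      refine ContDiffAt.contDiffWithinAt (ContDiffAt.congr_of_eventuallyEq ?_ (hev w₀ hw₀))
      exact ContDiffAt.sum fun j _ => (hterm w₀ hw₀ j).1
    refine (WD.of_C1 (hslice y) hC1).congr (hslice y) (fun _ _ => rfl) (fun w₀ hw₀ => ?_)
    rw [db_congr (hev w₀ hw₀)]
    have hd : ∀ j ∈ SS χ w₀, DifferentiableAt ℝ (fun w => χ j w * f i j (w, y)) w₀ := fun j _ =>
      (hterm w₀ hw₀ j).1.differentiableAt one_ne_zero
    have h1 : db (fun w => ∑ j ∈ SS χ w₀, χ j w * f i j (w, y)) w₀ =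
        ∑ j ∈ SS χ w₀, db (fun w => χ j w * f i j (w, y)) w₀ := by
      unfold db
      rw [fderiv_fun_sum hd]
      simp only [_root_.sum_apply]
      rw [Finset.mul_sum, ← Finset.sum_add_distrib, Finset.sum_div]
    rw [h1]
    unfold Glu
    exact (Finset.sum_congr rfl fun j _ => (hterm w₀ hw₀ j).2).symm
  · intro p hp
    rw [hsum χ hchi0 p hp]
    obtain ⟨-, r, hr, -, h⟩ := SS_spec hP (him p hp)
    exact (h p.1 (mem_ball_self hr)).2
  · intro p hp
    rw [hsum (fun j => db (χ j)) hdchi0 p hp]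
    exact sum_db hP (him p hp)

end

end Pool.Agent.W732.Cor
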