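import Mathlib
import Pool.Agent.W732.Cor.AsmA

/-!
Assembly: slice localisation over the half plane.
-/

set_option autoImplicit false

open MeasureTheory Metric Set Filter Topology Complex
open scoped ContDiff

namespace Pool.Agent.W732.Cor

open Pool.Agent.H720R2.HP Pool.Agent.H788R3.Cor2

theorem asm : S_op → S_part0 → S_base → S_asm := by
  rintro ⟨c₀, hc₀, hop⟩ hpart hbase N C
  set C₁ : ℝ := max C 1 with hC₁
  have hC₁1 : 1 ≤ C₁ := le_max_right _ _
  have hC₁0 : 0 < C₁ := by linarith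
  -- the partition of unity
  obtain ⟨K, a, χ, hK, ha, hc, hs, h1, hd, hf⟩ := hpart (1 / (4 * C₁)) (by positivity)
  have hPT : PT (1 / (4 * C₁)) K a χ := ⟨ha, hc, fun j w hw => hs j w hw, fun j w hw => h1 j w hw,
    fun j w hw => hd j w hw, fun w hw => hf w hw⟩
  obtain ⟨Cb', hCb'⟩ := hbase N (1 / C₁) (by positivity)
  set Cb := max Cb' 0 with hCb
  have hCb0 : 0 ≤ Cb := le_max_right _ _
  set M : ℝ := 16 * (2 * C₁) with hM
  set M' : ℝ := 16 * (K * (2 * C₁)) with hM'
  have hM0 : 0 ≤ M := by positivity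
  have hM'0 : 0 ≤ M' := by positivity
  refine ⟨Cb + (1 + N * Cb) * M + N * (c₀ * ((1 + N * Cb) * (2 * (M * M')))), ?_⟩
  intro E _ _ _ D Λ hT F hF hFb hloc
  have hD : IsOpen D := hT.retr.op
  have him : ∀ p ∈ D, p.1 ∈ UH := fun p hp => hT.retr.im p hp
  -- lower bound on the central slice
  have hFz : ∀ i, DifferentiableOn ℂ (fun w : ℂ => F i (w, 0)) UH := fun i =>
    (hF i).comp (differentiable_id.prodMk (differentiable_const _)).differentiableOn
      (fun w hw => hT.zero w hw)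
  have hlow : ∀ w ∈ UH, 1 / C₁ ≤ ∑ i, ‖F i (w, 0)‖ := by
    intro w hw
    obtain ⟨g, g₀, -, -, hgb, -, hid⟩ := hloc w hw
    have h2 := hid (w, 0) (hT.zero w hw)
    simp only [sub_self, zero_div, zero_mul, add_zero] at h2
    rw [div_le_iff₀ hC₁0, Finset.sum_mul]
    calc (1 : ℝ) = ‖∑ i, F i (w, 0) * g i (w, 0)‖ := by rw [h2, norm_one]
      _ ≤ ∑ i, ‖F i (w, 0) * g i (w, 0)‖ := norm_sum_le _ _
      _ ≤ ∑ i, ‖F i (w, 0)‖ * C₁ := by
          refine Finset.sum_le_sum fun i _ => ?_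
          rw [norm_mul]
          gcongr
          exact (hgb i _ (hT.zero w hw)).trans (le_max_left _ _)
  obtain ⟨h, hh, hhb, hh1⟩ := hCb' (fun i w => F i (w, 0)) hFz
    (fun i w hw => hFb i _ (hT.zero w hw)) hlow
  -- local solutions
  choose g g₀ hg hg₀ hgb hg₀b hid using fun j => hloc (a j) (ha j)
  set den : ℤ × ℤ → ℂ × E → ℂ := fun j p =>
    1 - (p.1 - a j) / (p.1 - starRingEnd ℂ (a j)) * g₀ j p with hden
  have hdne : ∀ j, ∀ p ∈ D, p.1 - starRingEnd ℂ (a j) ≠ 0 := fun j p hp =>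
    den_ne (ha j) (le_of_lt (him p hp))
  have hquot : ∀ j, ∀ p ∈ D, ∀ κ : ℝ, 0 ≤ κ → ‖p.1 - a j‖ ≤ κ * (a j).im →
      ‖(p.1 - a j) / (p.1 - starRingEnd ℂ (a j)) * g₀ j p‖ ≤ κ * C₁ := by
    intro j p hp κ hκ hle
    have h2 : (a j).im ≤ ‖p.1 - starRingEnd ℂ (a j)‖ := by
      have h3 : p.1.im + (a j).im ≤ ‖p.1 - starRingEnd ℂ (a j)‖ := im_add_le
      have h4 : 0 < p.1.im := him p hp
      linarith
    have h5 : 0 < ‖p.1 - starRingEnd ℂ (a j)‖ := lt_of_lt_of_le (ha j) h2
    rw [norm_mul, norm_div]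
    refine mul_le_mul ?_ ((hg₀b j p hp).trans (le_max_left _ _)) (norm_nonneg _) hκ
    rw [div_le_iff₀ h5]
    exact hle.trans (mul_le_mul_of_nonneg_left h2 hκ)
  have hden2 : ∀ j, ∀ p ∈ D, ‖p.1 - a j‖ ≤ 1 / (2 * C₁) * (a j).im → 1 / 2 ≤ ‖den j p‖ := by
    intro j p hp hle
    have h2 := hquot j p hp _ (by positivity) hle
    have h3 : 1 / (2 * C₁) * C₁ = 1 / 2 := by field_simp
    rw [h3] at h2
    have h4 := norm_sub_norm_le (1 : ℂ) ((p.1 - a j) / (p.1 - starRingEnd ℂ (a j)) * g₀ j p)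
    rw [norm_one] at h4
    simp only [hden]
    linarith
  have hκκ : 1 / (4 * C₁) < 1 / (2 * C₁) := by
    apply one_div_lt_one_div_of_lt (by positivity)
    linarith
  have hle' : ∀ j, ∀ p : ℂ × E, ‖p.1 - a j‖ ≤ 1 / (4 * C₁) * (a j).im →
      ‖p.1 - a j‖ ≤ 1 / (2 * C₁) * (a j).im := fun j p hp =>
    hp.trans (mul_le_mul_of_nonneg_right hκκ.le (ha j).le)
  obtain ⟨Φ, B, hPU⟩ := partA hPT hK hκκ hD him F (M := 2 * C₁) (by positivity)
    (fun i j p => g j i p / den j p) (by
      intro i j p hp hlt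
      have h2 : den j p ≠ 0 := by
        have := hden2 j p hp hlt.le
        intro h0
        rw [h0, norm_zero] at this
        linarith
      have h3 : DifferentiableAt ℂ (g j i) p := (hg j i p hp).differentiableAt (hD.mem_nhds hp)
      have h4 : DifferentiableAt ℂ (g₀ j) p := (hg₀ j p hp).differentiableAt (hD.mem_nhds hp)
      have h5 : DifferentiableAt ℂ (fun p : ℂ × E => p.1 - a j) p :=
        differentiableAt_fst.sub_const _
      have h6 : DifferentiableAt ℂ (fun p : ℂ × E => p.1 - starRingEnd ℂ (a j)) p :=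
        differentiableAt_fst.sub_const _
      have h8 : DifferentiableAt ℂ (fun p : ℂ × E => (p.1 - a j) / (p.1 - starRingEnd ℂ (a j))) p := by
        simp only [div_eq_mul_inv]
        exact h5.fun_mul (h6.fun_inv (hdne j p hp))
      have h9 : DifferentiableAt ℂ (fun p : ℂ × E =>
          (p.1 - a j) / (p.1 - starRingEnd ℂ (a j)) * g₀ j p) p := h8.fun_mul h4
      have h7 : DifferentiableAt ℂ (den j) p := (differentiableAt_const _).fun_sub h9
      simp only [div_eq_mul_inv]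
      exact h3.fun_mul (h7.fun_inv h2)) (by
      intro i j p hp hle
      have h2 := hden2 j p hp (hle' j p hle)
      rw [norm_div, div_le_iff₀ (by linarith)]
      have h3 := (hgb j i p hp).trans (le_max_left _ _ : C ≤ C₁)
      nlinarith) (by
      intro j p hp hle
      have h2 : den j p ≠ 0 := by
        have := hden2 j p hp (hle' j p hle)
        intro h0
        rw [h0, norm_zero] at this
        linarith
      have h3 := hid j p hp
      have h4 : ∑ i, F i p * (g j i p / den j p) = (∑ i, F i p * g j i p) / den j p := by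
        rw [Finset.sum_div]
        refine Finset.sum_congr rfl fun i _ => ?_
        rw [mul_div_assoc]
      rw [h4, div_eq_one_iff_eq h2]
      simp only [hden]
      linear_combination h3)
  obtain ⟨s, hs1, hs2, hs3⟩ := partB hc₀ (fun D Λ => hop E D Λ) hT hM0 hM'0 hPU hF hFb hCb0 hh
    (fun i w hw => (hhb i w hw).trans (le_max_left _ _)) hh1
  exact ⟨s, hs1, hs2, hs3⟩

end Pool.Agent.W732.Cor
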