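import Mathlib
import Pool.Agent.W732.Cor.Stm2

/-!
Examples: the algebra generated by the ball algebra and the functions
`H(⟨a, z⟩ a + t (z - ⟨a, z⟩ a))`, `t < 1`.
-/

set_option autoImplicit false

open Metric Set Filter Topology Complex

namespace Pool.Agent.W732.Cor

variable {m : ℕ}

theorem inner_le (p z : V m) (hp : ‖p‖ = 1) (hz : ‖z‖ < 1) : ‖(inner ℂ p z : ℂ)‖ < 1 := by
  refine lt_of_le_of_lt (norm_inner_le_norm p z) ?_
  rw [hp, one_mul]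
  exact hz

theorem inner_diff (p : V m) : Differentiable ℂ (fun z : V m => (inner ℂ p z : ℂ)) :=
  (innerSL ℂ p).differentiable

/-- the norm of `tau p t z` -/
theorem tau_sq (p z : V m) (hp : ‖p‖ = 1) (t : ℝ) :
    ‖tau p t z‖ ^ 2 = ‖(inner ℂ p z : ℂ)‖ ^ 2 + t ^ 2 * (‖z‖ ^ 2 - ‖(inner ℂ p z : ℂ)‖ ^ 2) := by
  set x : ℂ := inner ℂ p z with hx
  set y : V m := z - x • p with hy
  have hpy : (inner ℂ p y : ℂ) = 0 := by
    rw [hy, inner_sub_right, inner_smul_right, inner_self_eq_norm_sq_to_K, hp, ← hx]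
    simp
  have hort : ∀ c : ℂ, ‖x • p + c • y‖ ^ 2 = ‖x‖ ^ 2 + ‖c‖ ^ 2 * ‖y‖ ^ 2 := by
    intro c
    have h1 : (inner ℂ (x • p) (c • y) : ℂ) = 0 := by
      rw [inner_smul_left, inner_smul_right, hpy]
      simp
    have h2 := norm_add_sq (𝕜 := ℂ) (x • p) (c • y)
    rw [h1] at h2
    rw [h2, norm_smul, norm_smul, hp]
    simp only [map_zero, mul_zero, add_zero, mul_one]
    ring
  have hz : z = x • p + (1 : ℂ) • y := by rw [hy]; simp
  have h3 : ‖z‖ ^ 2 = ‖x‖ ^ 2 + ‖y‖ ^ 2 := by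
    conv_lhs => rw [hz]
    rw [hort, norm_one]
    ring
  have h4 : ‖tau p t z‖ ^ 2 = ‖x‖ ^ 2 + ‖(t : ℂ)‖ ^ 2 * ‖y‖ ^ 2 := by
    unfold tau
    rw [← hx, ← hy]
    exact hort t
  rw [h4, h3, Complex.norm_real, Real.norm_eq_abs, sq_abs]
  ring

theorem tau_mem (p z : V m) (hp : ‖p‖ = 1) {t : ℝ} (h0 : 0 ≤ t) (h1 : t ≤ 1) (hz : ‖z‖ < 1) :
    ‖tau p t z‖ < 1 := by
  have h2 := tau_sq p z hp t
  have h3 : ‖(inner ℂ p z : ℂ)‖ ≤ ‖z‖ := by
    have := norm_inner_le_norm (𝕜 := ℂ) p z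
    rwa [hp, one_mul] at this
  have h4 : ‖(inner ℂ p z : ℂ)‖ ^ 2 ≤ ‖z‖ ^ 2 := by gcongr
  have h5 : t ^ 2 ≤ 1 := pow_le_one₀ h0 h1
  have h6 : ‖tau p t z‖ ^ 2 ≤ ‖z‖ ^ 2 := by rw [h2]; nlinarith
  have h7 : ‖tau p t z‖ ≤ ‖z‖ := by
    exact le_of_sq_le_sq h6 (norm_nonneg _)
  linarith

theorem tau_diff (p : V m) (t : ℝ) : Differentiable ℂ (tau p t) := by
  unfold tau
  have h1 := inner_diff p
  have h2 := h1.smul_const p
  exact h2.fun_add ((differentiable_fun_id.fun_sub h2).fun_const_smul (t : ℂ))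

/-- `f` is asymptotic at every boundary point to a scaled continuous function -/
def AS (f : V m → ℂ) : Prop :=
  DifferentiableOn ℂ f (ball 0 1) ∧ (∃ M : ℝ, ∀ z ∈ ball (0 : V m) 1, ‖f z‖ ≤ M) ∧
  ∀ p : V m, ‖p‖ = 1 → ∃ h : V m → ℂ, DifferentiableOn ℂ h (ball 0 1) ∧
    (∃ M : ℝ, ∀ z ∈ ball (0 : V m) 1, ‖h z‖ ≤ M) ∧ SC p h ∧
    Tendsto (fun z => f z - h z) (𝓝[ball 0 1] p) (𝓝 0)

theorem AS.add (h3 : S_sc3) {f g : V m → ℂ} (hf : AS f) (hg : AS g) : AS (f + g) := by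
  obtain ⟨hfd, ⟨Mf, hMf⟩, hfp⟩ := hf
  obtain ⟨hgd, ⟨Mg, hMg⟩, hgp⟩ := hg
  refine ⟨hfd.add hgd, ⟨Mf + Mg, fun z hz => (norm_add_le _ _).trans
    (add_le_add (hMf z hz) (hMg z hz))⟩, fun p hp => ?_⟩
  obtain ⟨u, hu, ⟨Mu, hMu⟩, hus, hut⟩ := hfp p hp
  obtain ⟨v, hv, ⟨Mv, hMv⟩, hvs, hvt⟩ := hgp p hp
  refine ⟨fun z => u z + v z, hu.add hv, ⟨Mu + Mv, fun z hz => (norm_add_le _ _).trans
    (add_le_add (hMu z hz) (hMv z hz))⟩, (h3 m p hp u v hus hvs ⟨Mu, hMu⟩ ⟨Mv, hMv⟩).1, ?_⟩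
  have := hut.add hvt
  rw [add_zero] at this
  refine this.congr (fun z => ?_)
  simp only [Pi.add_apply]
  ring

theorem AS.mul (h3 : S_sc3) {f g : V m → ℂ} (hf : AS f) (hg : AS g) : AS (f * g) := by
  obtain ⟨hfd, ⟨Mf, hMf⟩, hfp⟩ := hf
  obtain ⟨hgd, ⟨Mg, hMg⟩, hgp⟩ := hg
  have hbd : ∀ (u v : V m → ℂ) (Mu Mv : ℝ), (∀ z ∈ ball (0 : V m) 1, ‖u z‖ ≤ Mu) →
      (∀ z ∈ ball (0 : V m) 1, ‖v z‖ ≤ Mv) → ∀ z ∈ ball (0 : V m) 1, ‖u z * v z‖ ≤ Mu * Mv := by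
    intro u v Mu Mv hu hv z hz
    rw [norm_mul]
    exact mul_le_mul (hu z hz) (hv z hz) (norm_nonneg _) ((norm_nonneg _).trans (hu z hz))
  refine ⟨hfd.mul hgd, ⟨Mf * Mg, fun z hz => hbd f g Mf Mg hMf hMg z hz⟩, fun p hp => ?_⟩
  obtain ⟨u, hu, ⟨Mu, hMu⟩, hus, hut⟩ := hfp p hp
  obtain ⟨v, hv, ⟨Mv, hMv⟩, hvs, hvt⟩ := hgp p hp
  refine ⟨fun z => u z * v z, hu.mul hv, ⟨Mu * Mv, fun z hz => hbd u v Mu Mv hMu hMv z hz⟩,
    (h3 m p hp u v hus hvs ⟨Mu, hMu⟩ ⟨Mv, hMv⟩).2.1, ?_⟩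
  -- f g - u v = (f - u) g + u (g - v)
  have e : (fun z => (f * g) z - u z * v z) = fun z => (f z - u z) * g z + u z * (g z - v z) := by
    funext z
    simp only [Pi.mul_apply]
    ring
  rw [e]
  have h1 : Tendsto (fun z => (f z - u z) * g z) (𝓝[ball 0 1] p) (𝓝 0) := by
    rw [tendsto_zero_iff_norm_tendsto_zero] at hut ⊢
    have hlim : Tendsto (fun z => ‖f z - u z‖ * |Mg|) (𝓝[ball 0 1] p) (𝓝 0) := by
      simpa using hut.mul_const |Mg|
    refine squeeze_zero' (Eventually.of_forall fun z => norm_nonneg _) ?_ hlim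
    filter_upwards [self_mem_nhdsWithin] with z hz
    rw [norm_mul]
    gcongr
    exact (hMg z hz).trans (le_abs_self _)
  have h2 : Tendsto (fun z => u z * (g z - v z)) (𝓝[ball 0 1] p) (𝓝 0) := by
    rw [tendsto_zero_iff_norm_tendsto_zero] at hvt ⊢
    have hlim : Tendsto (fun z => |Mu| * ‖g z - v z‖) (𝓝[ball 0 1] p) (𝓝 0) := by
      simpa using hvt.const_mul |Mu|
    refine squeeze_zero' (Eventually.of_forall fun z => norm_nonneg _) ?_ hlim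
    filter_upwards [self_mem_nhdsWithin] with z hz
    rw [norm_mul]
    gcongr
    exact (hMu z hz).trans (le_abs_self _)
  simpa using h1.add h2

theorem AS.const (h3 : S_sc3) (h1 : S_sc1) (c : ℂ) : AS (fun _ : V m => c) := by
  refine ⟨differentiableOn_const _, ⟨‖c‖, fun _ _ => le_rfl⟩, fun p hp => ?_⟩
  refine ⟨fun _ => c, differentiableOn_const _, ⟨‖c‖, fun _ _ => le_rfl⟩, ?_, ?_⟩
  · exact h1 m p hp (fun _ => c) (differentiableOn_const _) ⟨‖c‖, fun _ _ => le_rfl⟩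
  · simp only [sub_self]
    exact tendsto_const_nhds

theorem AS.cont (h1 : S_sc1) {f : V m → ℂ} (hd : DifferentiableOn ℂ f (ball 0 1))
    (hc : ContinuousOn f (closedBall 0 1)) : AS f := by
  have hb : ∃ M : ℝ, ∀ z ∈ ball (0 : V m) 1, ‖f z‖ ≤ M := by
    obtain ⟨M, hM⟩ := (isCompact_closedBall (0 : V m) 1).exists_bound_of_continuousOn hc
    exact ⟨M, fun z hz => hM z (ball_subset_closedBall hz)⟩
  refine ⟨hd, hb, fun p hp => ⟨fun _ => f p, differentiableOn_const _,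
    ⟨‖f p‖, fun _ _ => le_rfl⟩, ?_, ?_⟩⟩
  · exact h1 m p hp (fun _ => f p) (differentiableOn_const _) ⟨‖f p‖, fun _ _ => le_rfl⟩
  · have h2 : Tendsto f (𝓝[closedBall 0 1] p) (𝓝 (f p)) := hc p (by simp [hp])
    have h3 := (h2.mono_left (nhdsWithin_mono _ ball_subset_closedBall)).sub_const (f p)
    simpa using h3

/-- multiples of `H(tau_t)` are scaled continuous -/
theorem SC_tau (h2 : S_sc2) {p : V m} (hp : ‖p‖ = 1) {t : ℝ} (ht0 : 0 ≤ t) (ht1 : t < 1)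
    {H : V m → ℂ} (hH : DifferentiableOn ℂ H (ball 0 1)) {M : ℝ}
    (hM : ∀ z ∈ ball (0 : V m) 1, ‖H z‖ ≤ M) : SC p (fun z => H (tau p t z)) := by
  intro q hq hpq ε hε
  set M' : ℝ := |M| + 1 with hM'
  have hM'0 : 0 < M' := by positivity
  have hn : ‖(M' : ℂ)‖ = M' := by rw [Complex.norm_real, Real.norm_of_nonneg hM'0.le]
  obtain ⟨r, hr, h⟩ := h2 m p hp t ht0 ht1 (ε / M') (by positivity)
  refine ⟨r, hr, fun a ha z hz w hw hzq hwq => ?_⟩
  have h3 := h (fun z => H z * (M' : ℂ)⁻¹) (hH.mul_const _) (fun z hz => by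
    rw [norm_mul, norm_inv, hn, ← div_eq_mul_inv, div_le_one hM'0]
    linarith [hM z hz, le_abs_self M]) q hq hpq a ha z hz w hw hzq hwq
  rw [← sub_mul, norm_mul, norm_inv, hn, ← div_eq_mul_inv] at h3
  exact (div_le_div_iff_of_pos_right hM'0).1 h3

theorem AS.tau (h1 : S_sc1) (h2 : S_sc2) {a : V m} (ha : ‖a‖ = 1) {t : ℝ} (ht0 : 0 ≤ t)
    (ht1 : t < 1) {H : V m → ℂ} (hH : DifferentiableOn ℂ H (ball 0 1)) {M : ℝ}
    (hM : ∀ z ∈ ball (0 : V m) 1, ‖H z‖ ≤ M) : AS (fun z => H (tau a t z)) := by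
  have hmaps : MapsTo (Cor.tau a t) (ball (0 : V m) 1) (ball 0 1) := by
    intro z hz
    rw [mem_ball_zero_iff] at hz ⊢
    exact tau_mem a z ha ht0 ht1.le hz
  have hd : DifferentiableOn ℂ (fun z => H (Cor.tau a t z)) (ball 0 1) :=
    hH.comp (tau_diff a t).differentiableOn hmaps
  refine ⟨hd, ⟨M, fun z hz => hM _ (hmaps hz)⟩, fun p hp => ?_⟩
  have hle : ‖(inner ℂ a p : ℂ)‖ ≤ 1 := by
    have := norm_inner_le_norm (𝕜 := ℂ) a p
    rwa [ha, hp, one_mul] at this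
  rcases hle.lt_or_eq with hlt | heq
  · -- continuous at `p`
    have hmem : Cor.tau a t p ∈ ball (0 : V m) 1 := by
      rw [mem_ball_zero_iff]
      have h3 := tau_sq a p ha t
      rw [hp] at h3
      have h4 : t ^ 2 < 1 := by nlinarith
      have h5 : ‖(inner ℂ a p : ℂ)‖ ^ 2 < 1 := by
        nlinarith [norm_nonneg (inner ℂ a p : ℂ)]
      have h6 : ‖Cor.tau a t p‖ ^ 2 < 1 := by rw [h3]; nlinarith
      nlinarith [norm_nonneg (Cor.tau a t p)]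
    have hc : ContinuousAt (fun z => H (Cor.tau a t z)) p := by
      refine ContinuousAt.comp (g := H) ?_ (tau_diff a t).continuous.continuousAt
      exact (hH.differentiableAt (isOpen_ball.mem_nhds hmem)).continuousAt
    refine ⟨fun _ => H (Cor.tau a t p), differentiableOn_const _, ⟨_, fun _ _ => le_rfl⟩, ?_, ?_⟩
    · exact h1 m p hp (fun _ => H (Cor.tau a t p)) (differentiableOn_const _)
        ⟨_, fun _ _ => le_rfl⟩
    · have h3 := (hc.tendsto.mono_left (nhdsWithin_le_nhds (s := ball 0 1))).sub_const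
        (H (Cor.tau a t p))
      simpa using h3
  · -- `p` is on the circle through `a`
    have hpa : p = (inner ℂ a p : ℂ) • a := by
      have h3 : ‖p - (inner ℂ a p : ℂ) • a‖ ^ 2 = 0 := by
        have h4 := norm_sub_sq (𝕜 := ℂ) p ((inner ℂ a p : ℂ) • a)
        have h5 : (inner ℂ p ((inner ℂ a p : ℂ) • a) : ℂ) = ((‖(inner ℂ a p : ℂ)‖ ^ 2 : ℝ) : ℂ) := by
          rw [inner_smul_right, ← inner_conj_symm p a, Complex.mul_conj,
            Complex.normSq_eq_norm_sq]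
        rw [h5, norm_smul, ha, hp, heq] at h4
        rw [h4]
        norm_num
      have h4 : ‖p - (inner ℂ a p : ℂ) • a‖ = 0 := by
        exact pow_eq_zero_iff (two_ne_zero) |>.1 h3
      exact sub_eq_zero.1 (norm_eq_zero.1 h4)
    set c : ℂ := inner ℂ a p with hc
    have hcc : c * starRingEnd ℂ c = 1 := by
      rw [Complex.mul_conj, Complex.normSq_eq_norm_sq, heq]
      norm_num
    have htau : ∀ z, Cor.tau p t z = Cor.tau a t z := by
      intro z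
      have h3 : (inner ℂ p z : ℂ) • p = (inner ℂ a z : ℂ) • a := by
        rw [hpa, inner_smul_left, smul_smul]
        congr 1
        calc starRingEnd ℂ c * inner ℂ a z * c = (c * starRingEnd ℂ c) * inner ℂ a z := by ring
          _ = inner ℂ a z := by rw [hcc, one_mul]
      unfold Cor.tau
      rw [h3]
    refine ⟨fun z => H (Cor.tau a t z), hd, ⟨M, fun z hz => hM _ (hmaps hz)⟩, ?_, ?_⟩
    · have h3 := SC_tau h2 hp ht0 ht1 hH hM
      simp only [htau] at h3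
      exact h3
    · simp only [sub_self]
      exact tendsto_const_nhds

/-- generators -/
def Gen (m : ℕ) : Set (V m → ℂ) :=
  {f | ContinuousOn f (closedBall 0 1) ∧ DifferentiableOn ℂ f (ball 0 1)} ∪
  {f | ∃ (a : V m) (t : ℝ) (H : V m → ℂ), ‖a‖ = 1 ∧ 0 ≤ t ∧ t < 1 ∧
    DifferentiableOn ℂ H (ball 0 1) ∧ (∃ M : ℝ, ∀ z ∈ ball (0 : V m) 1, ‖H z‖ ≤ M) ∧
    f = fun z => H (tau a t z)}

theorem AS_adjoin (h1 : S_sc1) (h2 : S_sc2) (h3 : S_sc3) {f : V m → ℂ}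
    (hf : f ∈ Algebra.adjoin ℂ (Gen m)) : AS f := by
  induction hf using Algebra.adjoin_induction with
  | mem f hf =>
    rcases hf with ⟨hc, hd⟩ | ⟨a, t, H, ha, ht0, ht1, hH, ⟨M, hM⟩, rfl⟩
    · exact AS.cont h1 hd hc
    · exact AS.tau h1 h2 ha ht0 ht1 hH hM
  | algebraMap c => exact AS.const h3 h1 c
  | add f g _ _ hf hg => exact hf.add h3 hg
  | mul f g _ _ hf hg => exact hf.mul h3 hg

/-- the corona theorem for asymptotically scaled continuous functions and one arbitrary function -/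
theorem corona_AS (hfin : S_fin) (N : ℕ) (f : Fin N → V m → ℂ) (G : V m → ℂ)
    (hf : ∀ j, AS (f j)) (hG : DifferentiableOn ℂ G (ball 0 1))
    (hGb : ∃ M : ℝ, ∀ z ∈ ball (0 : V m) 1, ‖G z‖ ≤ M)
    (δ : ℝ) (hδ : 0 < δ) (hc : ∀ z ∈ ball (0 : V m) 1, δ ≤ ∑ j, ‖f j z‖ + ‖G z‖) :
    ∃ (g : Fin N → V m → ℂ) (g₀ : V m → ℂ),
      (∀ j, DifferentiableOn ℂ (g j) (ball 0 1)) ∧ DifferentiableOn ℂ g₀ (ball 0 1) ∧
      (∃ C : ℝ, (∀ j, ∀ z ∈ ball (0 : V m) 1, ‖g j z‖ ≤ C) ∧ ∀ z ∈ ball (0 : V m) 1, ‖g₀ z‖ ≤ C) ∧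
      ∀ z ∈ ball (0 : V m) 1, ∑ j, f j z * g j z + G z * g₀ z = 1 := by
  classical
  have hS : ∀ z, ∑ j ∈ Finset.univ.image (Fin.succ : Fin N → Fin (N + 1)),
      ‖(Fin.cons G f : Fin (N + 1) → V m → ℂ) j z‖ = ∑ j, ‖f j z‖ := by
    intro z
    rw [Finset.sum_image (fun i _ j _ h => Fin.succ_injective _ h)]
    simp
  obtain ⟨g, hg, ⟨C, hC⟩, hid⟩ := hfin m (N + 1) (Fin.cons G f) (by
    intro j
    refine Fin.cases ?_ (fun j => ?_) j
    · exact hG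
    · exact (hf j).1) (by
    intro j
    refine Fin.cases ?_ (fun j => ?_) j
    · exact hGb
    · exact (hf j).2.1) (by
    intro z hz
    by_contra hcon
    push Not at hcon
    have h1 : ∀ j, f j z = 0 := fun j => hcon j.succ
    have h2 : G z = 0 := hcon 0
    have h3 := hc z hz
    simp only [h1, h2, norm_zero, Finset.sum_const_zero, add_zero] at h3
    linarith) (by
    intro p hp
    refine ⟨0, Finset.univ.image Fin.succ, δ, hδ, ?_, ?_⟩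
    · filter_upwards [self_mem_nhdsWithin] with z hz
      rw [hS z, add_comm]
      exact hc z hz
    · intro j hj
      obtain ⟨i, -, rfl⟩ := Finset.mem_image.1 hj
      exact (hf i).2.2 p hp)
  refine ⟨fun j => g j.succ, g 0, fun j => hg _, hg 0, ⟨C, fun j => hC _, hC 0⟩, fun z hz => ?_⟩
  have h1 := hid z hz
  rw [Fin.sum_univ_succ] at h1
  simp only [Fin.cons_zero, Fin.cons_succ] at h1
  rw [add_comm]
  exact h1

end Pool.Agent.W732.Cor
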