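import Mathlib
import Pool.Agent.W732.Cor.Alg

/-!
Consequences: data `F_i(⟨p, z⟩ p + t (z - ⟨p, z⟩ p))`, and the reduction of the corona problem on
the ball to the case when one may use the function `⟨p, z⟩`.
-/

set_option autoImplicit false

open Metric Set Filter Topology Complex

namespace Pool.Agent.W732.Cor

variable {m : ℕ}

theorem uniform_tau (huni : S_uni) (h2 : S_sc2) (p : V m) (hp : ‖p‖ = 1) (N : ℕ) (δ : ℝ)
    (hδ : 0 < δ) (t : ℝ) (ht0 : 0 ≤ t) (ht1 : t < 1) :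
    ∃ C : ℝ, ∀ (F : Fin N → V m → ℂ) (G : V m → ℂ),
      (∀ i, DifferentiableOn ℂ (F i) (ball 0 1)) → DifferentiableOn ℂ G (ball 0 1) →
      (∀ i, ∀ z ∈ ball (0 : V m) 1, ‖F i z‖ ≤ 1) → (∀ z ∈ ball (0 : V m) 1, ‖G z‖ ≤ 1) →
      (∀ z ∈ ball (0 : V m) 1, δ ≤ ∑ i, ‖F i (tau p t z)‖ + ‖G z‖) →
      ∃ (g : Fin N → V m → ℂ) (g₀ : V m → ℂ),
        (∀ i, DifferentiableOn ℂ (g i) (ball 0 1)) ∧ DifferentiableOn ℂ g₀ (ball 0 1) ∧
        (∀ i, ∀ z ∈ ball (0 : V m) 1, ‖g i z‖ ≤ C) ∧ (∀ z ∈ ball (0 : V m) 1, ‖g₀ z‖ ≤ C) ∧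
        ∀ z ∈ ball (0 : V m) 1, ∑ i, F i (tau p t z) * g i z + G z * g₀ z = 1 := by
  classical
  choose r hr hr2 using fun (ε : ℝ) (hε : 0 < ε) => h2 m p hp t ht0 ht1 ε hε
  obtain ⟨C, hC⟩ := huni m p hp N δ hδ (fun _ ε => if h : 0 < ε then r ε h else 1) (by
    intro q ε hε
    simp only [dif_pos hε]
    exact hr ε hε)
  refine ⟨C, fun F G hF hG hFb hGb hc => ?_⟩
  have hmaps : MapsTo (tau p t) (ball (0 : V m) 1) (ball 0 1) := by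
    intro z hz
    rw [mem_ball_zero_iff] at hz ⊢
    exact tau_mem p z hp ht0 ht1.le hz
  refine hC (fun i z => F i (tau p t z)) G
    (fun i => (hF i).comp (tau_diff p t).differentiableOn hmaps) hG
    (fun i z hz => hFb i _ (hmaps hz)) hGb hc ?_
  intro i q hq hpq ε hε a ha z hz w hw hzq hwq
  simp only [dif_pos hε] at hzq hwq
  exact hr2 ε hε (F i) (hF i) (hFb i) q hq hpq a ha z hz w hw hzq hwq

theorem equiv_ball (hball : S_ball) (hmv : S_mv) (p : V m) (hp : ‖p‖ = 1) :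
    (∀ (N : ℕ) (δ : ℝ), 0 < δ → ∃ C : ℝ, ∀ f : Fin N → V m → ℂ,
      (∀ i, DifferentiableOn ℂ (f i) (ball 0 1)) → (∀ i, ∀ z ∈ ball (0 : V m) 1, ‖f i z‖ ≤ 1) →
      (∀ z ∈ ball (0 : V m) 1, δ ≤ ∑ i, ‖f i z‖) →
      ∃ g : Fin N → V m → ℂ, (∀ i, DifferentiableOn ℂ (g i) (ball 0 1)) ∧
        (∀ i, ∀ z ∈ ball (0 : V m) 1, ‖g i z‖ ≤ C) ∧
        ∀ z ∈ ball (0 : V m) 1, ∑ i, f i z * g i z = 1) ↔
    (∀ (N : ℕ) (δ : ℝ), 0 < δ → ∃ C : ℝ, ∀ f : Fin N → V m → ℂ,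
      (∀ i, DifferentiableOn ℂ (f i) (ball 0 1)) → (∀ i, ∀ z ∈ ball (0 : V m) 1, ‖f i z‖ ≤ 1) →
      (∀ z ∈ ball (0 : V m) 1, δ ≤ ∑ i, ‖f i z‖) →
      ∃ (g : Fin N → V m → ℂ) (g₀ : V m → ℂ),
        (∀ i, DifferentiableOn ℂ (g i) (ball 0 1)) ∧ DifferentiableOn ℂ g₀ (ball 0 1) ∧
        (∀ i, ∀ z ∈ ball (0 : V m) 1, ‖g i z‖ ≤ C) ∧ (∀ z ∈ ball (0 : V m) 1, ‖g₀ z‖ ≤ C) ∧
        ∀ z ∈ ball (0 : V m) 1, ∑ i, f i z * g i z + inner ℂ p z * g₀ z = 1) := by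
  constructor
  · intro h N δ hδ
    obtain ⟨C, hC⟩ := h N δ hδ
    refine ⟨max C 0, fun f hf hfb hc => ?_⟩
    obtain ⟨g, hg, hgb, hid⟩ := hC f hf hfb hc
    refine ⟨g, fun _ => 0, hg, differentiableOn_const _,
      fun i z hz => (hgb i z hz).trans (le_max_left _ _), fun z _ => ?_, fun z hz => ?_⟩
    · rw [norm_zero]; exact le_max_right _ _
    · rw [mul_zero, add_zero]; exact hid z hz
  · intro h N δ hδ
    obtain ⟨C, hC⟩ := h N δ hδ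
    obtain ⟨C', hC'⟩ := hball N C
    refine ⟨C', fun f hf hfb hc => hC' m p hp f hf hfb (fun a ha => ?_)⟩
    have ha' : -a ∈ ball (0 : ℂ) 1 := by simpa using ha
    obtain ⟨hd, hm, hinv, hin, -⟩ := hmv m p hp a ha
    obtain ⟨hd', hm', hinv', hin', -⟩ := hmv m p hp (-a) ha'
    rw [neg_neg] at hinv'
    obtain ⟨g, g₀, hg, hg₀, hgb, hg₀b, hid⟩ := hC (fun i z => f i (mv p a z))
      (fun i => (hf i).comp hd hm) (fun i z hz => hfb i _ (hm hz)) (fun z hz => hc _ (hm hz))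
    refine ⟨fun i z => g i (mv p (-a) z), fun z => g₀ (mv p (-a) z),
      fun i => (hg i).comp hd' hm', hg₀.comp hd' hm', fun i z hz => hgb i _ (hm' hz),
      fun z hz => hg₀b _ (hm' hz), fun z hz => ?_⟩
    have h1 := hid _ (hm' hz)
    rw [hinv' z hz, hin' z hz, map_neg, neg_mul, ← sub_eq_add_neg, ← sub_eq_add_neg] at h1
    exact h1

end Pool.Agent.W732.Cor
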