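import Mathlib
import Pool.Agent.W732.Cor.Asm
import Pool.Agent.W732.Cor.Cors
import Pool.Agent.W540.Cor.Ker
import Pool.Agent.W563.Cor.Part
import Pool.Agent.W688.Cor.OpS
import Pool.Agent.W688.Cor.Base
import Pool.Agent.W177.Cor.Disc
import Pool.Agent.W597.Cor.Ball
import Pool.Agent.W721.Cor.Mv
import Pool.Agent.W721.Cor.Uni
import Pool.Agent.W721.Cor.Sc
import Pool.Agent.W721.Cor.Sc2
import Pool.Agent.W902.Cor.Loc
import Pool.Agent.W973.Cor.Fin

/-!
All parts together.
-/

set_option autoImplicit false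

namespace Pool.Agent.W732.Cor

theorem t_op : S_op := Pool.Agent.W688.Cor.op_of_ker Pool.Agent.W540.Cor.main

theorem t_asm : S_asm := asm t_op Pool.Agent.W563.Cor.main Pool.Agent.W688.Cor.base

theorem t_disc : S_disc := Pool.Agent.W177.Cor.main t_asm

theorem t_ball : S_ball := Pool.Agent.W597.Cor.Ball.main t_disc

theorem t_mv : S_mv := Pool.Agent.W721.Cor.Mv.main

theorem t_loc : S_loc := Pool.Agent.W902.Cor.main

theorem t_uni : S_uni := Pool.Agent.W721.Cor.Uni.main t_mv t_loc t_ball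

theorem t_sc1 : S_sc1 := (Pool.Agent.W721.Cor.Sc.main t_mv).1

theorem t_sc3 : S_sc3 := (Pool.Agent.W721.Cor.Sc.main t_mv).2

theorem t_sc2 : S_sc2 := Pool.Agent.W721.Cor.Sc2.main t_mv

theorem t_fin : S_fin := W973.Cor.main t_mv t_uni t_sc1 t_sc3

end Pool.Agent.W732.Cor
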